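import Pool.Agent.T9h34.ReadsDef

/-!
# Formulas as inputs of circuits; levels of gates
-/

set_option autoImplicit false

namespace Pool.Agent.T9h36.SN

open Pool.Agent.T9h34

/-- A clause over `n` variables: a finite set of literals `(x, s)`; the literal `(x, s)` is true if
the variable `x` has the value `s`. -/
abbrev Clause (n : ℕ) : Type := Finset (Fin n × Bool)

/-- The assignment `α` satisfies the formula with the set of clauses `F`. -/
def Satisfies {n : ℕ} (α : Fin n → Bool) (F : Finset (Clause n)) : Prop :=
  ∀ c ∈ F, ∃ l ∈ c, α l.1 = l.2

/-- The formula with the set of clauses `F` is unsatisfiable. -/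
def Unsat {n : ℕ} (F : Finset (Clause n)) : Prop := ∀ α : Fin n → Bool, ¬ Satisfies α F

/-- The input which describes the formula `F`: for every clause whether it belongs to `F`. -/
def indicator {n : ℕ} (F : Finset (Clause n)) : Clause n → Bool := fun c => decide (c ∈ F)

/-- The probability of an event, for the uniform distribution on a finite set. -/
noncomputable def prob {Ω : Type} [Fintype Ω] (p : Ω → Prop) : ℝ :=
  ({ω | p ω}.ncard : ℝ) / Fintype.card Ω

/-- What a gate reads. -/
def sources {ι : Type} : Gate ι → List (Src ι)
  | .and a b => [a, b]
  | .or a b => [a, b]
  | .other args _ => args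

/-- `lev` assigns levels to the gates of the circuit: a gate which reads an earlier gate has at least
the level of this gate, and a larger one if it is neither an AND gate nor an OR gate. -/
def IsLevel {ι : Type} (C : Circuit ι) (lev : ℕ → ℕ) : Prop :=
  ∀ j g, C.gates[j]? = some g → ∀ i < j, Src.gate i ∈ sources g →
    lev i ≤ lev j ∧ (g.isOther = true → lev i < lev j)

/-- The number of values read by gate number `j`, or zero if it is an AND gate or an OR gate. -/
def numArgs {ι : Type} (C : Circuit ι) (j : ℕ) : ℕ :=
  match C.gates[j]? with
  | some g => g.args.length
  | none => 0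

/-- The product over the levels of one plus the number of values read by the gates of the level
which are neither AND gates nor OR gates. -/
def levelProduct {ι : Type} (C : Circuit ι) (lev : ℕ → ℕ) : ℕ :=
  ∏ l ∈ (Finset.range C.size).image lev,
    (1 + ∑ j ∈ (Finset.range C.size).filter (fun j => lev j = l), numArgs C j)

end Pool.Agent.T9h36.SN
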