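import Pool.Agent.T9h36.SN.Defs
import Pool.Agent.T9h35.NearBF.Count

/-!
# The number of changes is smaller than the level product
-/

set_option autoImplicit false

namespace Pool.Agent.T9h36.SN

open Finset Pool.Agent.T9h34 Pool.Agent.T9h35.NearBF

variable {ι : Type}

theorem numArgs_eq (C : Circuit ι) (j : ℕ) : numArgs C j = fan C j := rfl

/-- A source is monotone if the earlier gates which it reads are. -/
theorem src_mono {x y : ι → Bool} (hxy : ∀ i, x i = true → y i = true) (gs : List (Gate ι))
    (j : ℕ) (hj : j ≤ gs.length) (a : Src ι)
    (h : ∀ i < j, a = .gate i → (runGates x gs).getD i false = true →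
      (runGates y gs).getD i false = true)
    (ha : a.eval x (runGates x (gs.take j)) = true) :
    a.eval y (runGates y (gs.take j)) = true := by
  cases a with
  | input i => exact hxy i ha
  | const b => exact ha
  | gate i =>
    simp only [Src.eval] at ha ⊢
    by_cases hi : i < j
    · rw [getD_runGates_take _ gs hi hj] at ha ⊢
      exact h i hi rfl ha
    · rw [List.getD_eq_getElem?_getD, List.getElem?_eq_none] at ha
      · simp at ha
      · rw [length_runGates, List.length_take]
        omega

theorem val_eq (x : ι → Bool) (gs : List (Gate ι)) (i : ℕ) (hi : i < gs.length) :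
    (runGates x gs).getD i false = gs[i].eval x (runGates x (gs.take i)) := by
  have h4 := getD_runGates_take x gs (j := i + 1) (k := i) (by omega) hi
  have htake : gs.take (i + 1) = gs.take i ++ [gs[i]] := by
    rw [List.take_succ_eq_append_getElem hi]
  rw [htake, runGates_append,
    getD_append_eq (by rw [length_runGates, List.length_take]; omega)] at h4
  exact h4.symm

theorem val_mono (C : Circuit ι) {x y : ι → Bool} (hxy : ∀ i, x i = true → y i = true)
    (lev : ℕ → ℕ) (hl : IsLevel C lev) (l : ℕ)
    (h : ∀ j, lev j < l → C.readsAt x j = C.readsAt y j) :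
    ∀ i < C.gates.length, lev i < l → (runGates x C.gates).getD i false = true →
      (runGates y C.gates).getD i false = true := by
  intro i
  induction i using Nat.strong_induction_on with
  | _ i ih =>
    intro hi hli hx
    rw [val_eq x _ i hi] at hx
    rw [val_eq y _ i hi]
    have hgi : C.gates[i]? = some C.gates[i] := List.getElem?_eq_getElem hi
    have hlev := hl i _ hgi
    have hread := h i hli
    unfold Circuit.readsAt at hread
    rw [hgi] at hread
    cases hg : C.gates[i] with
    | and a b =>
      rw [hg] at hx hlev
      simp only [Gate.eval, Bool.and_eq_true] at hx ⊢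
      refine ⟨src_mono hxy C.gates i hi.le a ?_ hx.1, src_mono hxy C.gates i hi.le b ?_ hx.2⟩
      · rintro i' hi' rfl
        exact ih i' hi' (hi'.trans hi) (lt_of_le_of_lt
          (hlev i' hi' (by simp [sources])).1 hli)
      · rintro i' hi' rfl
        exact ih i' hi' (hi'.trans hi) (lt_of_le_of_lt
          (hlev i' hi' (by simp [sources])).1 hli)
    | or a b =>
      rw [hg] at hx hlev
      simp only [Gate.eval, Bool.or_eq_true] at hx ⊢
      rcases hx with hx | hx
      · left
        refine src_mono hxy C.gates i hi.le a ?_ hx
        rintro i' hi' rfl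
        exact ih i' hi' (hi'.trans hi) (lt_of_le_of_lt
          (hlev i' hi' (by simp [sources])).1 hli)
      · right
        refine src_mono hxy C.gates i hi.le b ?_ hx
        rintro i' hi' rfl
        exact ih i' hi' (hi'.trans hi) (lt_of_le_of_lt
          (hlev i' hi' (by simp [sources])).1 hli)
    | other args φ =>
      rw [hg] at hx hread
      simp only [Gate.eval] at hx ⊢
      simp only [Gate.args] at hread
      rw [← hread]
      exact hx

theorem level_mono (C : Circuit ι) {x y : ι → Bool} (hxy : ∀ i, x i = true → y i = true)
    (lev : ℕ → ℕ) (hl : IsLevel C lev) (l : ℕ)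
    (h : ∀ j, lev j < l → C.readsAt x j = C.readsAt y j) (j : ℕ) (hj : lev j = l) :
    (C.readsAt x j).count true ≤ (C.readsAt y j).count true ∧
      (C.readsAt x j ≠ C.readsAt y j →
        (C.readsAt x j).count true < (C.readsAt y j).count true) := by
  cases hg : C.gates[j]? with
  | none =>
    unfold Circuit.readsAt
    rw [hg]
    simp
  | some g =>
    have hjl : j < C.gates.length := by
      by_contra hcon
      rw [List.getElem?_eq_none (by omega)] at hg
      exact absurd hg (by simp)
    have hlev := hl j g hg
    unfold Circuit.readsAt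
    rw [hg]
    apply count_mono
    intro a ha hax
    refine src_mono hxy C.gates j hjl.le a ?_ hax
    rintro i hi rfl
    have hmem : Src.gate i ∈ sources g ∧ g.isOther = true := by
      cases g with
      | and a b => simp [Gate.args] at ha
      | or a b => simp [Gate.args] at ha
      | other args φ => exact ⟨ha, rfl⟩
    have h2 := (hlev i hi hmem.1).2 hmem.2
    exact val_mono C hxy lev hl l h i (hi.trans hjl) (by omega)

/-- The number of ones read at a level. -/
def digit (C : Circuit ι) (lev : ℕ → ℕ) (x : ι → Bool) (l : ℕ) : ℕ :=
  ∑ j ∈ (range C.size).filter (fun j => lev j = l), (C.readsAt x j).count true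

/-- The number of values read at a level. -/
def fanL (C : Circuit ι) (lev : ℕ → ℕ) (l : ℕ) : ℕ :=
  ∑ j ∈ (range C.size).filter (fun j => lev j = l), numArgs C j

theorem digit_le (C : Circuit ι) (lev : ℕ → ℕ) (x : ι → Bool) (l : ℕ) :
    digit C lev x l ≤ fanL C lev l := by
  apply sum_le_sum
  intro j _
  rw [numArgs_eq, ← length_readsAt C x j]
  exact List.count_le_length

/-- The mixed radix number. -/
def potL (C : Circuit ι) (lev : ℕ → ℕ) (x : ι → Bool) : ℕ → ℕ
  | 0 => 0
  | l + 1 => potL C lev x l * (fanL C lev l + 1) + digit C lev x l

theorem potL_lt (C : Circuit ι) (lev : ℕ → ℕ) (x : ι → Bool) (l : ℕ) :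
    potL C lev x l + 1 ≤ ∏ i ∈ range l, (fanL C lev i + 1) := by
  induction l with
  | zero => simp [potL]
  | succ l ih =>
    rw [prod_range_succ, potL]
    have h1 := digit_le C lev x l
    calc potL C lev x l * (fanL C lev l + 1) + digit C lev x l + 1
        ≤ potL C lev x l * (fanL C lev l + 1) + (fanL C lev l + 1) := by omega
      _ = (potL C lev x l + 1) * (fanL C lev l + 1) := by ring
      _ ≤ _ := Nat.mul_le_mul_right _ ih

theorem readsAt_of_le (C : Circuit ι) (x y : ι → Bool) (j : ℕ) (hj : C.size ≤ j) :
    C.readsAt x j = C.readsAt y j := by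
  unfold Circuit.readsAt
  rw [List.getElem?_eq_none (by exact hj)]

theorem potL_mono (C : Circuit ι) (lev : ℕ → ℕ) (hl : IsLevel C lev) {x y : ι → Bool}
    (hxy : ∀ i, x i = true → y i = true) (l : ℕ) :
    ((∀ j, lev j < l → C.readsAt x j = C.readsAt y j) ∧ potL C lev x l = potL C lev y l) ∨
      potL C lev x l < potL C lev y l := by
  induction l with
  | zero => exact Or.inl ⟨fun j hj => absurd hj (by omega), rfl⟩
  | succ l ih =>
    rcases ih with ⟨h1, h2⟩ | h1
    · have h3 := level_mono C hxy lev hl l h1
      by_cases hall : ∀ j, lev j = l → C.readsAt x j = C.readsAt y j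
      · left
        refine ⟨fun j hj => ?_, ?_⟩
        · rcases Nat.lt_succ_iff_lt_or_eq.1 hj with h | h
          · exact h1 j h
          · exact hall j h
        · rw [potL, potL, h2]
          congr 1
          apply sum_congr rfl
          intro j hj
          rw [hall j (mem_filter.1 hj).2]
      · right
        rw [not_forall] at hall
        obtain ⟨j, hj⟩ := hall
        rw [Classical.not_imp] at hj
        obtain ⟨hjl, hne⟩ := hj
        have hjs : j < C.size := by
          by_contra hcon
          exact hne (readsAt_of_le C x y j (by omega))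
        have h4 : digit C lev x l < digit C lev y l := by
          apply sum_lt_sum
          · intro i hi
            exact (h3 i (mem_filter.1 hi).2).1
          · exact ⟨j, mem_filter.2 ⟨mem_range.2 hjs, hjl⟩, (h3 j hjl).2 hne⟩
        rw [potL, potL, h2]
        omega
    · right
      rw [potL, potL]
      have h5 : (potL C lev x l + 1) * (fanL C lev l + 1) ≤ potL C lev y l * (fanL C lev l + 1) :=
        Nat.mul_le_mul_right _ h1
      have h6 := digit_le C lev x l
      have h7 : (potL C lev x l + 1) * (fanL C lev l + 1) =
          potL C lev x l * (fanL C lev l + 1) + (fanL C lev l + 1) := by ring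
      omega

theorem prod_fanL (C : Circuit ι) (lev : ℕ → ℕ) (d : ℕ) (hd : ∀ j < C.size, lev j < d) :
    ∏ i ∈ range d, (fanL C lev i + 1) = levelProduct C lev := by
  unfold levelProduct
  have h1 : (range C.size).image lev ⊆ range d := by
    intro l hl
    obtain ⟨j, hj, rfl⟩ := mem_image.1 hl
    exact mem_range.2 (hd j (mem_range.1 hj))
  symm
  rw [prod_congr rfl fun l _ => add_comm 1 _]
  apply prod_subset h1
  intro l _ hl
  have : (range C.size).filter (fun j => lev j = l) = ∅ := by
    rw [filter_eq_empty_iff]
    intro j hj hjl
    exact hl (mem_image.2 ⟨j, hj, hjl⟩)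
  rw [this, sum_empty, zero_add]

/-- The number of changes along an increasing chain. -/
theorem changes_le_level (C : Circuit ι) (lev : ℕ → ℕ) (hl : IsLevel C lev) (x : ℕ → ι → Bool)
    (hx : ∀ i e, x i e = true → x (i + 1) e = true) (m : ℕ)
    (h : ∀ i < m, C.reads (x i) ≠ C.reads (x (i + 1))) : m + 1 ≤ levelProduct C lev := by
  obtain ⟨d, hd⟩ : ∃ d, ∀ j < C.size, lev j < d :=
    ⟨(range C.size).sup lev + 1, fun j hj => Nat.lt_succ_of_le (le_sup (mem_range.2 hj))⟩
  have hlt : ∀ x y : ι → Bool, (∀ i, x i = true → y i = true) → C.reads x ≠ C.reads y →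
      potL C lev x d < potL C lev y d := by
    intro x y hxy hne
    rcases potL_mono C lev hl hxy d with ⟨h1, -⟩ | h1
    · exfalso
      apply hne
      unfold Circuit.reads
      apply List.map_congr_left
      intro j hj
      exact h1 j (hd j (List.mem_range.1 hj))
    · exact h1
  have key : ∀ i ≤ m, i ≤ potL C lev (x i) d := by
    intro i
    induction i with
    | zero => intro _; omega
    | succ i ih =>
      intro hi
      have h1 := hlt _ _ (hx i) (h i (by omega))
      have h2 := ih (by omega)
      omega
  have h1 := key m le_rfl
  have h2 := potL_lt C lev (x m) d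
  rw [prod_fanL C lev d hd] at h2
  omega

/-- The number of changes along a decreasing chain. -/
theorem changes_le_level' (C : Circuit ι) (lev : ℕ → ℕ) (hl : IsLevel C lev) (x : ℕ → ι → Bool)
    (hx : ∀ i e, x (i + 1) e = true → x i e = true) (m : ℕ)
    (h : ∀ i < m, C.reads (x i) ≠ C.reads (x (i + 1))) : m + 1 ≤ levelProduct C lev := by
  apply changes_le_level C lev hl (fun i => x (m - i))
  · intro i e he
    change x (m - (i + 1)) e = true
    change x (m - i) e = true at he
    by_cases hi : i < m
    · have : m - i = (m - (i + 1)) + 1 := by omega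
      rw [this] at he
      exact hx _ _ he
    · have : m - (i + 1) = m - i := by omega
      rw [this]
      exact he
  · intro i hi
    change C.reads (x (m - i)) ≠ C.reads (x (m - (i + 1)))
    have : m - i = (m - (i + 1)) + 1 := by omega
    rw [this]
    exact (h _ (by omega)).symm

end Pool.Agent.T9h36.SN
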