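import Pool.Agent.T9h35.NearBF.Chain

/-!
# Filling the blocks by random negative inputs
-/

set_option autoImplicit false

namespace Pool.Agent.T9h36.SN

open Finset
open Pool.Agent.T9h34 (Circuit exists_detector)
open Pool.Agent.T9h16 (Leaf)

/-- The changes of a sequence can be made consecutive. -/
theorem exists_consecutive {Z R : Type} [DecidableEq R] (Y : ℕ → Z) (rd : Z → R) (K : ℕ) :
    ∃ φ : ℕ → ℕ, Monotone φ ∧ ∀ i < ((range K).filter fun J => rd (Y J) ≠ rd (Y (J + 1))).card,
      rd (Y (φ i)) ≠ rd (Y (φ (i + 1))) := by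
  have key : ∃ φ : ℕ → ℕ, Monotone φ ∧ (∀ i, φ i ≤ K) ∧
      (∀ i < ((range K).filter fun J => rd (Y J) ≠ rd (Y (J + 1))).card,
        rd (Y (φ i)) ≠ rd (Y (φ (i + 1)))) ∧
      ∀ i, ((range K).filter fun J => rd (Y J) ≠ rd (Y (J + 1))).card ≤ i →
        rd (Y (φ i)) = rd (Y K) := by
    induction K with
    | zero => exact ⟨fun _ => 0, fun _ _ _ => le_rfl, fun _ => le_rfl, by simp, fun _ _ => rfl⟩
    | succ K ih =>
      obtain ⟨φ, h1, h2, h3, h4⟩ := ih
      obtain ⟨m, hm⟩ : ∃ m, m = ((range K).filter fun J => rd (Y J) ≠ rd (Y (J + 1))).card :=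
        ⟨_, rfl⟩
      rw [← hm] at h3 h4
      by_cases hc : rd (Y K) ≠ rd (Y (K + 1))
      · have hcard : ((range (K + 1)).filter fun J => rd (Y J) ≠ rd (Y (J + 1))).card = m + 1 := by
          rw [range_add_one, filter_insert, if_pos hc, card_insert_of_notMem, ← hm]
          intro hmem
          rw [mem_filter, mem_range] at hmem
          omega
        rw [hcard]
        refine ⟨fun i => if i ≤ m then φ i else K + 1, ?_, ?_, ?_, ?_⟩
        · intro i j hij
          by_cases hj : j ≤ m
          · simp only [if_pos hj, if_pos (hij.trans hj)]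
            exact h1 hij
          · simp only [if_neg hj]
            by_cases hi : i ≤ m
            · simp only [if_pos hi]
              exact (h2 i).trans (Nat.le_succ K)
            · simp only [if_neg hi]
              exact le_rfl
        · intro i
          by_cases hi : i ≤ m
          · simp only [if_pos hi]
            exact (h2 i).trans (Nat.le_succ K)
          · simp only [if_neg hi]
            exact le_rfl
        · intro i hi
          rcases Nat.lt_succ_iff_lt_or_eq.1 hi with h | h
          · simp only [if_pos h.le, if_pos (Nat.succ_le_of_lt h)]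
            exact h3 i h
          · subst h
            simp only [le_refl, if_true, if_neg (Nat.not_succ_le_self i)]
            rw [h4 i le_rfl]
            exact hc
        · intro i hi
          simp only [if_neg (by omega : ¬ i ≤ m)]
      · have hcard : ((range (K + 1)).filter fun J => rd (Y J) ≠ rd (Y (J + 1))).card = m := by
          rw [range_add_one, filter_insert, if_neg hc, hm]
        rw [hcard]
        rw [not_not] at hc
        exact ⟨φ, h1, fun i => (h2 i).trans (Nat.le_succ K), h3, fun i hi => (h4 i hi).trans hc⟩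
  obtain ⟨φ, h1, -, h3, -⟩ := key
  exact ⟨φ, h1, h3⟩

/-- Resampling one coordinate. -/
theorem sum_update {ι K : Type} [Fintype ι] [DecidableEq ι] [Fintype K] (β : ι)
    (f : (ι → K) → ℝ) :
    ∑ ω : ι → K, ∑ k : K, f (Function.update ω β k) = Fintype.card K * ∑ ω : ι → K, f ω := by
  have h1 : ∑ ω : ι → K, ∑ k : K, f (Function.update ω β k) =
      ∑ p : (ι → K) × K, f (Function.update p.1 β p.2) := by
    rw [Fintype.sum_prod_type]
  have h2 : ∑ p : (ι → K) × K, f (Function.update p.1 β p.2) =
      ∑ p : (ι → K) × K, f p.1 := by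
    let e : (ι → K) × K ≃ (ι → K) × K :=
      ⟨fun p => (Function.update p.1 β p.2, p.1 β), fun p => (Function.update p.1 β p.2, p.1 β),
        fun p => by simp, fun p => by simp⟩
    exact Equiv.sum_comp e (fun p => f p.1)
  rw [h1, h2, Fintype.sum_prod_type, mul_sum]
  apply sum_congr rfl
  intro ω _
  simp only
  rw [sum_const, card_univ, nsmul_eq_mul]

section
variable {ι E K T Λ : Type} [Fintype ι] [DecidableEq ι] (Ng : K → Set E) (Pg : T → Set E)

/-- The first `J` blocks are filled by negative inputs, the others are empty. -/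
def pathY (ω : ι → K) (J : ℕ) : ι → Set E :=
  fun β => open Classical in if (Fintype.equivFin ι β).val < J then Ng (ω β) else ∅

theorem pathY_mono (ω : ι → K) {J J' : ℕ} (h : J ≤ J') (β : ι) :
    pathY Ng ω J β ⊆ pathY Ng ω J' β := by
  unfold pathY
  split_ifs with h1 h2
  · exact subset_rfl
  · omega
  · exact Set.empty_subset _
  · exact subset_rfl

theorem pathY_succ (ω : ι → K) (β : ι) :
    pathY Ng ω ((Fintype.equivFin ι β).val + 1) =
      Function.update (pathY Ng ω (Fintype.equivFin ι β).val) β (Ng (ω β)) := by
  funext β'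
  by_cases h : β' = β
  · subst h
    rw [Function.update_self, pathY, if_pos (Nat.lt_succ_self _)]
  · rw [Function.update_of_ne h]
    have hne : (Fintype.equivFin ι β').val ≠ (Fintype.equivFin ι β).val := by
      intro hcon
      exact h ((Fintype.equivFin ι).injective (Fin.ext hcon))
    unfold pathY
    by_cases h1 : (Fintype.equivFin ι β').val < (Fintype.equivFin ι β).val
    · rw [if_pos h1, if_pos (by omega)]
    · rw [if_neg h1, if_neg (by omega)]

theorem pathY_update (ω : ι → K) (β : ι) (k : K) :
    pathY Ng (Function.update ω β k) (Fintype.equivFin ι β).val =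
      pathY Ng ω (Fintype.equivFin ι β).val := by
  funext β'
  by_cases h : β' = β
  · subst h
    rw [pathY, pathY, if_neg (lt_irrefl _), if_neg (lt_irrefl _)]
  · rw [pathY, pathY, Function.update_of_ne h]

open scoped Classical in
/-- The number of steps in which the values read by the further gates change. -/
noncomputable def changes (C : Circuit Λ) (X : (ι → Set E) → Λ → Bool) (ω : ι → K) : ℕ :=
  ((range (Fintype.card ι)).filter fun J =>
    C.reads (X (pathY Ng ω J)) ≠ C.reads (X (pathY Ng ω (J + 1)))).card

open scoped Classical in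
theorem step_average [Fintype K] [Nonempty K] [Fintype T] [Nonempty T] (N : ℕ) (δ : ℝ)
    (hard : ∀ (D : Circuit Λ), (∀ g ∈ D.gates, g.IsMono) → D.size ≤ N →
      ∀ x : Set E → Λ → Bool, (∀ a, Leaf (fun z => x z a = true)) →
      ((univ.filter fun t : T => D.eval (x (Pg t)) = true).card : ℝ) / Fintype.card T +
      ((univ.filter fun k : K => D.eval (x (Ng k)) = false).card : ℝ) / Fintype.card K ≤ 1 + δ)
    (C : Circuit Λ) (hs : C.size + C.numReads + 1 ≤ N)
    (X : (ι → Set E) → Λ → Bool)
    (mono : ∀ y y', (∀ i, y i ⊆ y' i) → ∀ a, X y a = true → X y' a = true)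
    (leaf : ∀ e, (∃ t : Bool, ∀ y, X y e = t) ∨ ∃ i b, ∀ y, X y e = true ↔ b ∈ y i) (β : ι) :
    ∑ ω : ι → K, ((if C.eval (X (pathY Ng ω ((Fintype.equivFin ι β).val + 1))) = false
        then (1 : ℝ) else 0) +
      (∑ t : T, if C.eval (X (Function.update (pathY Ng ω (Fintype.equivFin ι β).val) β (Pg t)))
        = true then (1 : ℝ) else 0) / Fintype.card T) ≤
      ∑ ω : ι → K, (1 + δ + if C.reads (X (pathY Ng ω (Fintype.equivFin ι β).val)) ≠
        C.reads (X (pathY Ng ω ((Fintype.equivFin ι β).val + 1))) then (1 : ℝ) else 0) := by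
  have hK : (0 : ℝ) < Fintype.card K := by exact_mod_cast Fintype.card_pos
  have hT : (0 : ℝ) < Fintype.card T := by exact_mod_cast Fintype.card_pos
  -- one term
  have hone : ∀ ω : ι → K,
      (∑ k : K, (if C.eval (X (Function.update (pathY Ng ω (Fintype.equivFin ι β).val) β (Ng k)))
        = false then (1 : ℝ) else 0)) +
      Fintype.card K * ((∑ t : T, if C.eval (X (Function.update
        (pathY Ng ω (Fintype.equivFin ι β).val) β (Pg t))) = true then (1 : ℝ) else 0) /
          Fintype.card T) ≤
      Fintype.card K * (1 + δ) + ∑ k : K, (if C.reads (X (pathY Ng ω (Fintype.equivFin ι β).val)) ≠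
        C.reads (X (Function.update (pathY Ng ω (Fintype.equivFin ι β).val) β (Ng k)))
          then (1 : ℝ) else 0) := by
    intro ω
    obtain ⟨y, hy⟩ : ∃ y, y = pathY Ng ω (Fintype.equivFin ι β).val := ⟨_, rfl⟩
    have hyβ : y β = ∅ := by
      rw [hy, pathY, if_neg (lt_irrefl _)]
    rw [← hy]
    obtain ⟨D, hD1, hD2, hD3, hD4⟩ := exists_detector C (X y)
    have hsub : ∀ z i, y i ⊆ Function.update y β z i := by
      intro z i
      by_cases hi : i = β
      · subst hi
        rw [hyβ]
        exact Set.empty_subset _
      · rw [Function.update_of_ne hi]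
    have hleaf : ∀ a, Leaf (fun z => X (Function.update y β z) a = true) := by
      intro a
      rcases leaf a with ⟨t, ht⟩ | ⟨i, v, hv⟩
      · refine Or.inr ⟨t = true, fun z => ?_⟩
        change X _ a = true ↔ _
        rw [ht]
      · by_cases hib : i = β
        · subst hib
          left
          refine ⟨v, fun z => ?_⟩
          change X _ a = true ↔ _
          rw [hv, Function.update_self]
        · right
          refine ⟨v ∈ y i, fun z => ?_⟩
          change X _ a = true ↔ _
          rw [hv, Function.update_of_ne hib]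
    have h1 := hard D hD1 (hD2.trans hs) (fun z => X (Function.update y β z)) hleaf
    have h2 : (∑ t : T, if C.eval (X (Function.update y β (Pg t))) = true then (1 : ℝ) else 0) ≤
        ((univ.filter fun t : T => D.eval (X (Function.update y β (Pg t))) = true).card : ℝ) := by
      rw [card_filter]
      push_cast
      apply sum_le_sum
      intro t _
      by_cases hc : C.eval (X (Function.update y β (Pg t))) = true
      · rw [if_pos hc, if_pos]
        by_contra hcon
        rw [Bool.not_eq_true] at hcon
        have := (hD3 _ (fun i hi => mono _ _ (hsub _) i hi) hcon).2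
        rw [hc] at this
        exact absurd this (by simp)
      · rw [if_neg hc]
        split_ifs <;> norm_num
    have h3 : (∑ k : K, if C.eval (X (Function.update y β (Ng k))) = false then (1 : ℝ) else 0) ≤
        ((univ.filter fun k : K => D.eval (X (Function.update y β (Ng k))) = false).card : ℝ) +
        ∑ k : K, (if C.reads (X y) ≠ C.reads (X (Function.update y β (Ng k)))
          then (1 : ℝ) else 0) := by
      rw [card_filter]
      push_cast
      rw [← sum_add_distrib]
      apply sum_le_sum
      intro k _
      by_cases hc : C.eval (X (Function.update y β (Ng k))) = false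
      · rw [if_pos hc]
        by_cases hd : D.eval (X (Function.update y β (Ng k))) = false
        · rw [if_pos hd]
          split_ifs <;> norm_num
        · rw [if_neg hd, if_pos]
          · norm_num
          · intro hr
            rw [Bool.not_eq_false] at hd
            have := hD4 _ hr.symm hd
            rw [hc] at this
            exact absurd this (by simp)
      · rw [if_neg hc]
        split_ifs <;> norm_num
    have h4 : (Fintype.card K : ℝ) *
        (((univ.filter fun t : T => D.eval (X (Function.update y β (Pg t))) = true).card : ℝ) /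
          Fintype.card T +
        ((univ.filter fun k : K => D.eval (X (Function.update y β (Ng k))) = false).card : ℝ) /
          Fintype.card K) ≤ Fintype.card K * (1 + δ) := mul_le_mul_of_nonneg_left h1 hK.le
    rw [mul_add, mul_div_cancel₀ _ hK.ne'] at h4
    have h5 : (Fintype.card K : ℝ) * ((∑ t : T, if C.eval (X (Function.update y β (Pg t))) = true
        then (1 : ℝ) else 0) / Fintype.card T) ≤ Fintype.card K *
        (((univ.filter fun t : T => D.eval (X (Function.update y β (Pg t))) = true).card : ℝ) /
          Fintype.card T) := by gcongr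
    linarith
  -- sum over all
  have hsum := sum_le_sum fun ω (_ : ω ∈ (univ : Finset (ι → K))) => hone ω
  have e1 : ∀ ω : ι → K, ∀ k : K,
      X (Function.update (pathY Ng ω (Fintype.equivFin ι β).val) β (Ng k)) =
        X (pathY Ng (Function.update ω β k) ((Fintype.equivFin ι β).val + 1)) := by
    intro ω k
    rw [pathY_succ, pathY_update, Function.update_self]
  have e2 : ∀ ω : ι → K, ∀ k : K,
      X (pathY Ng ω (Fintype.equivFin ι β).val) =
        X (pathY Ng (Function.update ω β k) (Fintype.equivFin ι β).val) := by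
    intro ω k
    rw [pathY_update]
  have s1 : ∑ ω : ι → K, ∑ k : K, (if C.eval (X (Function.update
        (pathY Ng ω (Fintype.equivFin ι β).val) β (Ng k))) = false then (1 : ℝ) else 0) =
      Fintype.card K * ∑ ω : ι → K, (if C.eval (X (pathY Ng ω ((Fintype.equivFin ι β).val + 1)))
        = false then (1 : ℝ) else 0) := by
    rw [← sum_update β]
    apply sum_congr rfl
    intro ω _
    apply sum_congr rfl
    intro k _
    rw [e1]
  have s2 : ∑ ω : ι → K, ∑ k : K, (if C.reads (X (pathY Ng ω (Fintype.equivFin ι β).val)) ≠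
        C.reads (X (Function.update (pathY Ng ω (Fintype.equivFin ι β).val) β (Ng k)))
          then (1 : ℝ) else 0) =
      Fintype.card K * ∑ ω : ι → K, (if C.reads (X (pathY Ng ω (Fintype.equivFin ι β).val)) ≠
        C.reads (X (pathY Ng ω ((Fintype.equivFin ι β).val + 1))) then (1 : ℝ) else 0) := by
    rw [← sum_update β]
    apply sum_congr rfl
    intro ω _
    apply sum_congr rfl
    intro k _
    rw [e1, ← e2 ω k]
  rw [sum_add_distrib, sum_add_distrib, s1, s2, ← mul_sum, ← mul_sum, ← mul_add, ← mul_add,
    ← sum_add_distrib, ← sum_add_distrib] at hsum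
  exact le_of_mul_le_mul_left hsum hK

open scoped Classical in
/-- The average over all blocks. -/
theorem path_average [Fintype K] [Nonempty K] [Fintype T] [Nonempty T] (N : ℕ) (δ : ℝ)
    (hard : ∀ (D : Circuit Λ), (∀ g ∈ D.gates, g.IsMono) → D.size ≤ N →
      ∀ x : Set E → Λ → Bool, (∀ a, Leaf (fun z => x z a = true)) →
      ((univ.filter fun t : T => D.eval (x (Pg t)) = true).card : ℝ) / Fintype.card T +
      ((univ.filter fun k : K => D.eval (x (Ng k)) = false).card : ℝ) / Fintype.card K ≤ 1 + δ)
    (C : Circuit Λ) (hs : C.size + C.numReads + 1 ≤ N)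
    (X : (ι → Set E) → Λ → Bool)
    (mono : ∀ y y', (∀ i, y i ⊆ y' i) → ∀ a, X y a = true → X y' a = true)
    (leaf : ∀ e, (∃ t : Bool, ∀ y, X y e = t) ∨ ∃ i b, ∀ y, X y e = true ↔ b ∈ y i) :
    ∃ ω₀ : ι → K,
    (∑ ω : ι → K, ∑ β : ι, ((if C.eval (X (pathY Ng ω ((Fintype.equivFin ι β).val + 1))) = false
        then (1 : ℝ) else 0) +
      (∑ t : T, if C.eval (X (Function.update (pathY Ng ω (Fintype.equivFin ι β).val) β (Pg t)))
        = true then (1 : ℝ) else 0) / Fintype.card T)) ≤
      Fintype.card (ι → K) * (Fintype.card ι * (1 + δ) + changes Ng C X ω₀) := by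
  obtain ⟨ω₀, hω₀⟩ : ∃ ω₀ : ι → K, ∀ ω, changes Ng C X ω ≤ changes Ng C X ω₀ := by
    obtain ⟨ω₀, -, h⟩ := exists_max_image (univ : Finset (ι → K)) (changes Ng C X) univ_nonempty
    exact ⟨ω₀, fun ω => h ω (mem_univ _)⟩
  refine ⟨ω₀, ?_⟩
  rw [sum_comm]
  refine (sum_le_sum fun β _ =>
    step_average Ng Pg N δ hard C hs X mono leaf β).trans ?_
  rw [sum_comm]
  have h1 : ∀ ω : ι → K, ∑ β : ι, (1 + δ +
      if C.reads (X (pathY Ng ω (Fintype.equivFin ι β).val)) ≠
        C.reads (X (pathY Ng ω ((Fintype.equivFin ι β).val + 1))) then (1 : ℝ) else 0) ≤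
      Fintype.card ι * (1 + δ) + changes Ng C X ω₀ := by
    intro ω
    rw [sum_add_distrib, sum_const, card_univ, nsmul_eq_mul]
    have h2 : ∑ β : ι, (if C.reads (X (pathY Ng ω (Fintype.equivFin ι β).val)) ≠
        C.reads (X (pathY Ng ω ((Fintype.equivFin ι β).val + 1))) then (1 : ℝ) else 0) =
        changes Ng C X ω := by
      rw [changes, card_filter, Nat.cast_sum, sum_range]
      push_cast
      exact Equiv.sum_comp (Fintype.equivFin ι) (fun J : Fin (Fintype.card ι) =>
        if C.reads (X (pathY Ng ω J.val)) ≠ C.reads (X (pathY Ng ω (J.val + 1)))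
          then (1 : ℝ) else 0)
    rw [h2]
    have h3 : (changes Ng C X ω : ℝ) ≤ changes Ng C X ω₀ := by exact_mod_cast hω₀ ω
    linarith
  refine (sum_le_sum fun ω _ => h1 ω).trans (le_of_eq ?_)
  rw [sum_const, card_univ, nsmul_eq_mul]

end

end Pool.Agent.T9h36.SN
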