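import Pool.Agent.T9h35.NearBF.Chain

/-!
# The advantage of a monotone circuit for transversals against colourings
-/

set_option autoImplicit false

namespace Pool.Agent.T9h36.SN

open Pool.Agent.T9h35
open Finset Pool.Agent.T9h35.Sharp Pool.Agent.T9h35.NearBF
open Pool.Agent.T9h34 (Circuit)
open Pool.Agent.T9h16 (Leaf Avail)
open scoped Classical

theorem card_pos_fiber {κ w : ℕ} (W : Finset (Vx κ w)) :
    (univ.filter fun φ : Fin κ → Fin w => W ⊆ gr φ).card ≤ w ^ (κ - (W.image Prod.fst).card) := by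
  have h : (univ : Finset ({i // i ∉ W.image Prod.fst} → Fin w)).card =
      w ^ (κ - (W.image Prod.fst).card) := by
    rw [card_univ, Fintype.card_fun, Fintype.card_fin]
    congr 1
    rw [Fintype.card_subtype_compl, Fintype.card_fin, Fintype.card_coe]
  rw [← h]
  apply card_le_card_of_injOn (fun φ i => φ i.1) (fun _ _ => mem_univ _)
  intro φ hφ φ' hφ' heq
  rw [mem_coe, mem_filter] at hφ hφ'
  funext i
  by_cases hi : i ∈ W.image Prod.fst
  · obtain ⟨v, hv, rfl⟩ := mem_image.1 hi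
    rw [(mem_gr φ v).1 (hφ.2 hv), (mem_gr φ' v).1 (hφ'.2 hv)]
  · exact congrFun heq ⟨i, hi⟩

theorem mins_fiber {κ w m : ℕ} (r b : ℕ) (hm : 1 ≤ m) (hr : 1 ≤ r) (hb : 2 * m ≤ b)
    (𝒲 : Finset (Finset (Fin κ × Fin w))) (h𝒲 : ∀ W ∈ 𝒲, W.card ≤ m) (hcl : Closed m r 𝒲)
    (P : Finset (Fin κ)) :
    ((mins 𝒲).filter fun W => W.image Prod.fst = P).card ≤ (b * (m * r)) ^ P.card := by
  obtain ⟨F, hFdef⟩ : ∃ F, F = (mins 𝒲).filter fun W => W.image Prod.fst = P := ⟨_, rfl⟩
  rw [← hFdef]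
  have hFm : ∀ W ∈ F, W ∈ 𝒲 ∧ (∀ W' ∈ 𝒲, W' ⊆ W → W' = W) ∧ W.image Prod.fst = P ∧
      W.card = P.card := by
    intro W hW
    rw [hFdef, mem_filter, mins, mem_filter] at hW
    refine ⟨hW.1.1, hW.1.2.2, hW.2, ?_⟩
    rw [← hW.2, card_image_of_injOn hW.1.2.1]
  rcases F.eq_empty_or_nonempty with h0 | ⟨W₀, hW₀⟩
  · rw [h0, card_empty]
    exact Nat.zero_le _
  · have hPm : P.card ≤ m := by
      rw [← (hFm W₀ hW₀).2.2.2]
      exact h𝒲 W₀ (hFm W₀ hW₀).1
    by_contra hcon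
    rw [not_le] at hcon
    obtain ⟨K, ⟨W, hW, hKW⟩, hK⟩ := sunflower r b hm hr hb P hPm F
      (fun W hW => (hFm W hW).2.2) hcon
    have hK𝒲 : K ∈ 𝒲 := by
      apply hcl K
      · exact (card_le_card hKW.subset).trans (h𝒲 W (hFm W hW).1)
      · refine le_trans (Nat.mul_le_mul_left _ (card_le_card ?_)) hK
        intro χ hχ
        rw [mem_filter] at hχ ⊢
        refine ⟨hχ.1, hχ.2.1, fun W' hW' => ?_⟩
        by_contra hcon
        exact hχ.2.2 ⟨W', (hFm W' hW').1, hcon⟩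
    exact hKW.ne ((hFm W hW).2.1 K hK𝒲 hKW.subset)

theorem pow_le_two_mul (c w κ : ℕ) (hw : 1 ≤ w) (h : 2 * κ * c ≤ w) :
    (c + w) ^ κ ≤ 2 * w ^ κ := by
  have hw0 : (0 : ℝ) < w := by exact_mod_cast hw
  have h1 : ((c : ℝ) + w) ^ κ ≤ 2 * (w : ℝ) ^ κ := by
    have h2 : ((c : ℝ) + w) = w * (1 + c / w) := by
      field_simp
      ring
    rw [h2, mul_pow, mul_comm]
    apply mul_le_mul_of_nonneg_right _ (by positivity)
    calc (1 + (c : ℝ) / w) ^ κ ≤ (Real.exp (c / w)) ^ κ := by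
          apply pow_le_pow_left₀ (by positivity)
          have := Real.add_one_le_exp ((c : ℝ) / w)
          linarith
      _ = Real.exp (κ * (c / w)) := by rw [← Real.exp_nat_mul]
      _ ≤ Real.exp (1 / 2) := by
          apply Real.exp_le_exp.2
          rw [← mul_div_assoc, div_le_div_iff₀ hw0 (by norm_num)]
          have : (2 : ℝ) * κ * c ≤ w := by exact_mod_cast h
          linarith
      _ ≤ 2 := by
          have h3 : Real.exp (1 / 2) ^ 2 ≤ 2 ^ 2 := by
            rw [← Real.exp_nat_mul]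
            have := Real.exp_one_lt_d9
            norm_num at this ⊢
            linarith
          exact (pow_le_pow_iff_left₀ (Real.exp_pos _).le (by norm_num) (by norm_num)).1 h3
  exact_mod_cast h1

/-- A closed family has no advantage. -/
theorem closed_advantage {κ w m : ℕ} (r : ℕ) (hm : 1 ≤ m) (hr : 1 ≤ r) (hw : 1 ≤ w)
    (hκw : 2 * κ * (2 * m * (2 * m * (m * r))) ≤ w)
    (𝒲 : Finset (Finset (Vx κ w))) (h𝒲 : ∀ W ∈ 𝒲, W.card ≤ m) (hcl : Closed m r 𝒲) :
    (univ.filter fun φ : Fin κ → Fin w => ∃ W ∈ 𝒲, W ⊆ gr φ).card *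
        m ^ Fintype.card (Vx κ w) +
      (univ.filter fun χ : Vx κ w → Fin m => ¬ Sharp.Acc 𝒲 χ).card * w ^ κ ≤
      w ^ κ * m ^ Fintype.card (Vx κ w) := by
  obtain ⟨A, hA⟩ : ∃ A, A = univ.filter fun φ : Fin κ → Fin w => ∃ W ∈ 𝒲, W ⊆ gr φ := ⟨_, rfl⟩
  obtain ⟨N, hN⟩ : ∃ N, N = univ.filter fun χ : Vx κ w → Fin m => Sharp.Acc 𝒲 χ := ⟨_, rfl⟩
  obtain ⟨M, hM⟩ : ∃ M, M = m ^ Fintype.card (Vx κ w) := ⟨_, rfl⟩
  have hsum : N.card + (univ.filter fun χ : Vx κ w → Fin m => ¬ Sharp.Acc 𝒲 χ).card = M := by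
    rw [hN, card_filter_add_card_filter_not, card_univ, Fintype.card_fun, Fintype.card_fin, hM]
  rw [← hA, ← hM]
  rcases 𝒲.eq_empty_or_nonempty with h0 | hne
  · have hA0 : A = ∅ := by
      rw [hA, h0, filter_eq_empty_iff]
      rintro φ - ⟨W, hW, -⟩
      exact absurd hW (notMem_empty W)
    rw [hA0, card_empty, zero_mul, zero_add, mul_comm]
    apply Nat.mul_le_mul_left
    omega
  · obtain ⟨W₀, hW₀, hmin⟩ := exists_min_image 𝒲 Finset.card hne
    obtain ⟨l, hl⟩ : ∃ l, l = W₀.card := ⟨_, rfl⟩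
    rw [← hl] at hmin
    have hagree : M ≤ N.card * m ^ l := by
      obtain ⟨χr, hχr⟩ := exists_rainbow (m := m) (by omega) W₀ (h𝒲 W₀ hW₀)
      rw [hl, hM]
      apply card_agree χr W₀ N
      intro χ hχ
      rw [hN, mem_filter]
      refine ⟨mem_univ _, W₀, hW₀, ?_⟩
      rintro ⟨u, hu, v, hv, hne, huv⟩
      exact hχr ⟨u, hu, v, hv, hne, by rw [← hχ u hu, ← hχ v hv, huv]⟩
    have hAl : A.card * m ^ l ≤ w ^ κ := by
      rcases Nat.eq_zero_or_pos l with h0 | hl1
      · rw [h0, pow_zero, mul_one]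
        refine (card_le_univ _).trans (le_of_eq ?_)
        rw [Fintype.card_fun, Fintype.card_fin, Fintype.card_fin]
      · have hsub : A ⊆ (mins 𝒲).biUnion fun W =>
            univ.filter fun φ : Fin κ → Fin w => W ⊆ gr φ := by
          intro φ hφ
          rw [hA, mem_filter] at hφ
          obtain ⟨-, W, hW, hWφ⟩ := hφ
          obtain ⟨W', hW', hW'φ⟩ := exists_min hW hWφ
          exact mem_biUnion.2 ⟨W', hW', mem_filter.2 ⟨mem_univ _, hW'φ⟩⟩
        have h1 : A.card ≤ ∑ W ∈ mins 𝒲, w ^ (κ - (W.image Prod.fst).card) :=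
          (card_le_card hsub).trans (card_biUnion_le.trans
            (sum_le_sum fun W _ => card_pos_fiber W))
        have h2 : ∑ W ∈ mins 𝒲, w ^ (κ - (W.image Prod.fst).card) =
            ∑ P : Finset (Fin κ), ((mins 𝒲).filter fun W => W.image Prod.fst = P).card *
              w ^ (κ - P.card) := by
          rw [← sum_fiberwise_of_maps_to (s := mins 𝒲) (t := univ)
            (g := fun W => W.image Prod.fst) (fun _ _ => mem_univ _)]
          apply sum_congr rfl
          intro P _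
          rw [← smul_eq_mul, ← sum_const]
          apply sum_congr rfl
          intro W hW
          rw [(mem_filter.1 hW).2]
        have h3 : ∀ P : Finset (Fin κ), (2 * m) ^ l *
            (((mins 𝒲).filter fun W => W.image Prod.fst = P).card * w ^ (κ - P.card)) ≤
              (2 * m * (2 * m * (m * r))) ^ P.card * w ^ (κ - P.card) := by
          intro P
          rw [← mul_assoc]
          apply Nat.mul_le_mul_right
          rcases ((mins 𝒲).filter fun W => W.image Prod.fst = P).eq_empty_or_nonempty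
            with h4 | ⟨W, hW⟩
          · rw [h4, card_empty, mul_zero]
            exact Nat.zero_le _
          · have hWP : l ≤ P.card := by
              rw [mem_filter, mins, mem_filter] at hW
              rw [← hW.2, card_image_of_injOn hW.1.2.1]
              exact hmin W hW.1.1
            rw [mul_pow (2 * m)]
            apply Nat.mul_le_mul
            · exact Nat.pow_le_pow_right (by omega) hWP
            · exact mins_fiber r (2 * m) hm hr le_rfl 𝒲 h𝒲 hcl P
        have h4 : (2 * m) ^ l * A.card ≤ 2 * w ^ κ := by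
          calc (2 * m) ^ l * A.card
              ≤ (2 * m) ^ l * ∑ P : Finset (Fin κ),
                ((mins 𝒲).filter fun W => W.image Prod.fst = P).card * w ^ (κ - P.card) := by
                rw [← h2]
                exact Nat.mul_le_mul_left _ h1
            _ = ∑ P : Finset (Fin κ), (2 * m) ^ l *
                (((mins 𝒲).filter fun W => W.image Prod.fst = P).card * w ^ (κ - P.card)) := by
                rw [mul_sum]
            _ ≤ ∑ P : Finset (Fin κ),
                (2 * m * (2 * m * (m * r))) ^ P.card * w ^ (κ - P.card) :=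
                sum_le_sum fun P _ => h3 P
            _ = (2 * m * (2 * m * (m * r)) + w) ^ κ := by
                have := sum_pow_mul_eq_add_pow (2 * m * (2 * m * (m * r))) w
                  (univ : Finset (Fin κ))
                rw [powerset_univ, card_univ, Fintype.card_fin] at this
                exact this
            _ ≤ 2 * w ^ κ := pow_le_two_mul _ w κ hw hκw
        have h5 : 2 ≤ 2 ^ l := by
          calc 2 = 2 ^ 1 := rfl
            _ ≤ 2 ^ l := Nat.pow_le_pow_right (by norm_num) hl1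
        have h6 : 2 * (A.card * m ^ l) ≤ 2 * w ^ κ := by
          calc 2 * (A.card * m ^ l) ≤ 2 ^ l * (A.card * m ^ l) := Nat.mul_le_mul_right _ h5
            _ = (2 * m) ^ l * A.card := by rw [mul_pow]; ring
            _ ≤ 2 * w ^ κ := h4
        omega
    have h7 : A.card * M ≤ w ^ κ * N.card := by
      calc A.card * M ≤ A.card * (N.card * m ^ l) := Nat.mul_le_mul_left _ hagree
        _ = A.card * m ^ l * N.card := by ring
        _ ≤ w ^ κ * N.card := Nat.mul_le_mul_right _ hAl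
    calc A.card * M + (univ.filter fun χ : Vx κ w → Fin m => ¬ Sharp.Acc 𝒲 χ).card * w ^ κ
        ≤ w ^ κ * N.card + (univ.filter fun χ : Vx κ w → Fin m => ¬ Sharp.Acc 𝒲 χ).card * w ^ κ :=
          Nat.add_le_add_right h7 _
      _ = w ^ κ * (N.card + (univ.filter fun χ : Vx κ w → Fin m => ¬ Sharp.Acc 𝒲 χ).card) := by ring
      _ = w ^ κ * M := by rw [hsum]

/-- A small monotone circuit has a small advantage. -/
theorem mono_advantage {Λ : Type} {m w : ℕ} (r s : ℕ) (hm : 2 ≤ m) (hr : 1 ≤ r) (hw : 1 ≤ w)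
    (hκw : 2 * (m + 1) * (2 * m * (2 * m * (m * r))) ≤ w) (D : Circuit Λ)
    (hD : ∀ g ∈ D.gates, g.IsMono) (hDs : D.size ≤ s)
    (x : Set (EE (m + 1) w) → Λ → Bool) (hleaf : ∀ a, Leaf (fun z => x z a = true)) :
    ((univ.filter fun φ : Fin (m + 1) → Fin w => D.eval (x (posG φ)) = true).card : ℝ) /
        (w : ℝ) ^ (m + 1) +
      ((univ.filter fun χ : Vx (m + 1) w → Fin m => D.eval (x (negG χ)) = false).card : ℝ) /
        (m : ℝ) ^ Fintype.card (Vx (m + 1) w) ≤
      1 + ((s * (2 ^ (m + 1) * (2 * m * (m * r)) ^ m) ^ 2 : ℕ) : ℝ) / (w : ℝ) ^ (m + 1) +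
        (((3 * s + 1) * NS (Vx (m + 1) w) m : ℕ) : ℝ) / 2 ^ r := by
  obtain ⟨h, hh⟩ : ∃ h : Set (EE (m + 1) w) → Prop, h = fun z => D.eval (x z) = true := ⟨_, rfl⟩
  have hh' : ∀ z, h z ↔ D.eval (x z) = true := fun z => by rw [hh]
  obtain ⟨PE, NE, hPE, hNE, happ⟩ := apc_slp r (2 * m) hm hr le_rfl _ D.size
    (isSLP_gates D hD x hleaf)
  obtain ⟨D₁, hD₁, 𝒲, h1, h2, h4, h5⟩ := apc_avail r hm _ D.size happ
    (hh ▸ avail_out D x hleaf : Avail _ D.size h)
  obtain ⟨M, hM⟩ : ∃ M, M = m ^ Fintype.card (Vx (m + 1) w) := ⟨_, rfl⟩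
  obtain ⟨Q, hQ⟩ : ∃ Q, Q = (2 ^ (m + 1) * (2 * m * (m * r)) ^ m) ^ 2 := ⟨_, rfl⟩
  have hM1 : 1 ≤ M := by
    rw [hM]
    exact Nat.one_le_pow _ _ (by omega)
  rw [← hQ] at hPE ⊢
  have hadv := closed_advantage (κ := m + 1) (w := w) r (by omega) hr hw hκw 𝒲 h1 h2
  rw [← hM] at hadv hNE hD₁
  have hpos : (univ.filter fun φ : Fin (m + 1) → Fin w => D.eval (x (posG φ)) = true).card ≤
      (univ.filter fun φ : Fin (m + 1) → Fin w => ∃ W ∈ 𝒲, W ⊆ gr φ).card + s * Q := by
    refine le_trans (card_le_card (t := (univ.filter fun φ : Fin (m + 1) → Fin w =>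
      ∃ W ∈ 𝒲, W ⊆ gr φ) ∪ PE) ?_) ((card_union_le _ _).trans ?_)
    · intro φ hφ
      rw [mem_filter] at hφ
      by_cases hP : φ ∈ PE
      · exact mem_union_right _ hP
      · obtain ⟨W, hW, hWφ⟩ := h4 φ hP ((hh' _).2 hφ.2)
        exact mem_union_left _ (mem_filter.2 ⟨mem_univ _, W, hW, fun v hv =>
          (mem_gr φ v).2 (hWφ v hv)⟩)
    · exact Nat.add_le_add_left (hPE.trans (Nat.mul_le_mul_right _ hDs)) _
  have hneg : (univ.filter fun χ : Vx (m + 1) w → Fin m => D.eval (x (negG χ)) = false).card ≤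
      (univ.filter fun χ : Vx (m + 1) w → Fin m => ¬ Sharp.Acc 𝒲 χ).card + (NE ∪ D₁).card := by
    refine le_trans (card_le_card (t := (univ.filter fun χ : Vx (m + 1) w → Fin m =>
      ¬ Sharp.Acc 𝒲 χ) ∪ (NE ∪ D₁)) ?_) (card_union_le _ _)
    intro χ hχ
    rw [mem_filter] at hχ
    by_cases hN : χ ∈ NE ∪ D₁
    · exact mem_union_right _ hN
    · refine mem_union_left _ (mem_filter.2 ⟨mem_univ _, fun hacc => ?_⟩)
      have := (hh' _).1 (h5 χ hN hacc)
      rw [hχ.2] at this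
      exact absurd this (by simp)
  have hNE' : 2 ^ r * (NE ∪ D₁).card ≤ (3 * s + 1) * NS (Vx (m + 1) w) m * M := by
    calc 2 ^ r * (NE ∪ D₁).card ≤ 2 ^ r * (NE.card + D₁.card) :=
          Nat.mul_le_mul_left _ (card_union_le _ _)
      _ = 2 ^ r * NE.card + 2 ^ r * D₁.card := by ring
      _ ≤ D.size * (3 * (NS (Vx (m + 1) w) m * M)) + NS (Vx (m + 1) w) m * M :=
          Nat.add_le_add hNE hD₁
      _ ≤ s * (3 * (NS (Vx (m + 1) w) m * M)) + NS (Vx (m + 1) w) m * M :=
          Nat.add_le_add_right (Nat.mul_le_mul_right _ hDs) _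
      _ = (3 * s + 1) * NS (Vx (m + 1) w) m * M := by ring
  -- real form
  generalize (univ.filter fun φ : Fin (m + 1) → Fin w => ∃ W ∈ 𝒲, W ⊆ gr φ).card = A at hadv hpos
  generalize (univ.filter fun χ : Vx (m + 1) w → Fin m => ¬ Sharp.Acc 𝒲 χ).card = B at hadv hneg
  generalize (NE ∪ D₁).card = e at hneg hNE'
  generalize (univ.filter fun φ : Fin (m + 1) → Fin w => D.eval (x (posG φ)) = true).card = a
    at hpos ⊢
  generalize (univ.filter fun χ : Vx (m + 1) w → Fin m => D.eval (x (negG χ)) = false).card = c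
    at hneg ⊢
  have e1 : (m : ℝ) ^ Fintype.card (Vx (m + 1) w) = M := by
    rw [hM]
    push_cast
    rfl
  rw [e1]
  have hMr : (0 : ℝ) < M := by exact_mod_cast hM1
  have hwr : (0 : ℝ) < (w : ℝ) ^ (m + 1) := by
    have : (0 : ℝ) < w := by exact_mod_cast hw
    positivity
  have r1 : (A : ℝ) * M + B * (w : ℝ) ^ (m + 1) ≤ (w : ℝ) ^ (m + 1) * M := by exact_mod_cast hadv
  have r2 : (a : ℝ) ≤ A + ((s * Q : ℕ) : ℝ) := by exact_mod_cast hpos
  have r3 : (c : ℝ) ≤ B + e := by exact_mod_cast hneg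
  have r4 : (2 : ℝ) ^ r * e ≤ (((3 * s + 1) * NS (Vx (m + 1) w) m : ℕ) : ℝ) * M := by
    exact_mod_cast hNE'
  have q1 : (A : ℝ) / (w : ℝ) ^ (m + 1) + B / M ≤ 1 := by
    rw [div_add_div _ _ hwr.ne' hMr.ne', div_le_one (by positivity)]
    linarith
  have q2 : (e : ℝ) / M ≤ (((3 * s + 1) * NS (Vx (m + 1) w) m : ℕ) : ℝ) / 2 ^ r := by
    rw [div_le_div_iff₀ hMr (by positivity)]
    linarith
  have q3 : (a : ℝ) / (w : ℝ) ^ (m + 1) ≤ A / (w : ℝ) ^ (m + 1) +
      ((s * Q : ℕ) : ℝ) / (w : ℝ) ^ (m + 1) := by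
    rw [← add_div]
    gcongr
  have q4 : (c : ℝ) / M ≤ B / M + e / M := by
    rw [← add_div]
    gcongr
  linarith

end Pool.Agent.T9h36.SN
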