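import Pool.Agent.T9h36.SN.Sat
import Pool.Agent.T9h36.SN.AvgMono
import Pool.Agent.T9h36.SN.Path

/-!
# The advantage of a circuit, for one way to cut the variables
-/

set_option autoImplicit false

namespace Pool.Agent.T9h36.SN

open Finset Pool.Agent.T9h35.Sharp Pool.Agent.T9h35.NearBF
open Pool.Agent.T9h34 (Circuit)

theorem prob_eq {Ω : Type} [Fintype Ω] (p : Ω → Prop) [DecidablePred p] :
    prob p = (∑ x : Ω, if p x then (1 : ℝ) else 0) / Fintype.card Ω := by
  unfold prob
  congr 1
  have h : {ω | p ω} = ((univ.filter p : Finset Ω) : Set Ω) := by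
    ext x
    simp
  rw [h, Set.ncard_coe_finset, card_filter]
  push_cast
  rfl

theorem prob_le_one {Ω : Type} [Fintype Ω] (p : Ω → Prop) : prob p ≤ 1 := by
  classical
  rw [prob_eq]
  apply div_le_one_of_le₀ _ (Nat.cast_nonneg _)
  calc (∑ x : Ω, if p x then (1 : ℝ) else 0) ≤ ∑ _x : Ω, (1 : ℝ) := by
        apply sum_le_sum
        intro x _
        split_ifs <;> norm_num
    _ = Fintype.card Ω := by simp

variable {n g κ b r₀ : ℕ}

namespace Cut

variable (S : Cut n g κ b r₀)

/-- An assignment consists of its block, its transversal, and the other variables. -/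
def equiv : (Fin n → Bool) ≃ ((Fin g → Bool) × (Fin κ → Fin (2 ^ b))) × (Fin r₀ → Bool) where
  toFun α := ((S.blk α, S.trv α), fun p => α (S.E.symm (.inr p)))
  invFun q := S.mk' q.1.1 q.1.2 q.2
  left_inv α := by
    funext v
    obtain ⟨x, rfl⟩ := S.E.symm.surjective v
    rcases x with (p | ⟨i, p⟩) | p
    · simp [mk', blk, vg]
    · simp only [mk', Equiv.apply_symm_apply]
      rw [S.bits_trv]
      rfl
    · simp [mk']
  right_inv q := by
    obtain ⟨⟨β, φ⟩, ρ⟩ := q
    simp only
    rw [S.blk_mk, S.trv_mk]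
    congr 1
    funext p
    simp [mk']

theorem sum_cut (f : (Fin g → Bool) → (Fin κ → Fin (2 ^ b)) → ℝ) :
    ∑ α : Fin n → Bool, f (S.blk α) (S.trv α) = 2 ^ r₀ * ∑ β, ∑ φ, f β φ := by
  have h1 := Equiv.sum_comp S.equiv (fun q => f q.1.1 q.1.2)
  have h2 : ∑ α : Fin n → Bool, f (S.blk α) (S.trv α) =
      ∑ α : Fin n → Bool, (fun q : ((Fin g → Bool) × (Fin κ → Fin (2 ^ b))) × (Fin r₀ → Bool) =>
        f q.1.1 q.1.2) (S.equiv α) := rfl
  rw [h2, h1, Fintype.sum_prod_type, Fintype.sum_prod_type, mul_sum]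
  apply sum_congr rfl
  intro β _
  rw [mul_sum]
  apply sum_congr rfl
  intro φ _
  simp only
  rw [sum_const, card_univ, Fintype.card_fun, Fintype.card_bool, Fintype.card_fin, nsmul_eq_mul]
  push_cast
  rfl

end Cut

/-- The sample space. -/
abbrev Om (g m b : ℕ) : Type := (Fin g → Bool) → (Vx (m + 1) (2 ^ b) → Fin m)

/-- The random unsatisfiable formula. -/
noncomputable def F0 {m : ℕ} (S : Cut n g (m + 1) b r₀) (p : Om g m b × (Fin n → Bool)) :
    Finset (Clause n) :=
  S.formula (pathY negG p.1 ((Fintype.equivFin (Fin g → Bool) (S.blk p.2)).val + 1))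

/-- The random satisfiable formula. -/
noncomputable def F1 {m : ℕ} (S : Cut n g (m + 1) b r₀) (p : Om g m b × (Fin n → Bool)) :
    Finset (Clause n) :=
  S.formula (Function.update (pathY negG p.1 (Fintype.equivFin (Fin g → Bool) (S.blk p.2)).val)
    (S.blk p.2) (posG (S.trv p.2)))

theorem not_TK_path {m : ℕ} (hm : 1 ≤ m) (ω : Om g m b) (J : ℕ) (β : Fin g → Bool) :
    ¬ TK (pathY negG ω J β) := by
  unfold pathY
  split_ifs
  · exact not_TK_negG _
  · exact not_TK_empty (by omega)

theorem unsat_F0 {m : ℕ} (hm : 1 ≤ m) (S : Cut n g (m + 1) b r₀)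
    (p : Om g m b × (Fin n → Bool)) : Unsat (F0 S p) := by
  rw [F0, S.unsat_formula]
  exact fun β => not_TK_path hm _ _ β

theorem satisfies_F1 {m : ℕ} (S : Cut n g (m + 1) b r₀) (p : Om g m b × (Fin n → Bool)) :
    Satisfies p.2 (F1 S p) := by
  rw [F1, S.satisfies_formula, Function.update_self]

/-- The main step. -/
theorem core_average {m : ℕ} (S : Cut n g (m + 1) b r₀) (hn : g + (m + 1) * b + r₀ = n)
    (hb : 1 ≤ b) (hm : 2 ≤ m) (𝒞 : Finset (Clause n)) (h𝒞 : S.clauses ⊆ 𝒞) (r : ℕ) (hr : 1 ≤ r)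
    (hκ : 2 * (m + 1) * (2 * m * (2 * m * (m * r))) ≤ 2 ^ b) (C : Circuit (Clause n)) :
    ∃ (k : ℕ) (F : ℕ → Finset (Clause n)), (∀ i, F i ⊆ 𝒞 ∧ Unsat (F i) ∧ F (i + 1) ⊆ F i) ∧
      (∀ i < k, C.reads (indicator (F i)) ≠ C.reads (indicator (F (i + 1)))) ∧
      k + 1 ≤ (C.gates.map fun g => g.args.length + 1).prod ∧
      prob (fun p => C.eval (indicator (F0 S p)) = true) +
        prob (fun p => C.eval (indicator (F1 S p)) = false) ≤ 1 + (k : ℝ) / 2 ^ g +
        ((((C.size + C.numReads + 1) * (2 ^ (m + 1) * (2 * m * (m * r)) ^ m) ^ 2 : ℕ) : ℝ) /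
          ((2 ^ b : ℕ) : ℝ) ^ (m + 1) +
        (((3 * (C.size + C.numReads + 1) + 1) * NS (Vx (m + 1) (2 ^ b)) m : ℕ) : ℝ) / 2 ^ r) := by
  classical
  obtain ⟨N, hN⟩ : ∃ N, N = C.size + C.numReads + 1 := ⟨_, rfl⟩
  rw [← hN]
  obtain ⟨δ, hδ⟩ : ∃ δ : ℝ, δ = ((N * (2 ^ (m + 1) * (2 * m * (m * r)) ^ m) ^ 2 : ℕ) : ℝ) /
          ((2 ^ b : ℕ) : ℝ) ^ (m + 1) +
        (((3 * N + 1) * NS (Vx (m + 1) (2 ^ b)) m : ℕ) : ℝ) / 2 ^ r := ⟨_, rfl⟩
  rw [← hδ]
  obtain ⟨X, hX⟩ : ∃ X : ((Fin g → Bool) → Set (EE (m + 1) (2 ^ b))) → Clause n → Bool,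
      X = fun y c => !(indicator (S.formula y) c) := ⟨_, rfl⟩
  have heval : ∀ y, (dual C).eval (X y) = !(C.eval (indicator (S.formula y))) := by
    intro y
    rw [hX]
    exact eval_dual C _
  have hmono : ∀ y y' : (Fin g → Bool) → Set (EE (m + 1) (2 ^ b)), (∀ i, y i ⊆ y' i) →
      ∀ a, X y a = true → X y' a = true := by
    intro y y' hyy a ha
    rw [hX] at ha ⊢
    simp only [indicator, Bool.not_eq_true', decide_eq_false_iff_not] at ha ⊢
    exact fun h => ha (S.formula_anti hyy h)
  have : Nonempty (Fin m) := ⟨⟨0, by omega⟩⟩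
  obtain ⟨ω₀, hω₀⟩ := path_average (ι := Fin g → Bool) (E := EE (m + 1) (2 ^ b))
    (K := Vx (m + 1) (2 ^ b) → Fin m) (T := Fin (m + 1) → Fin (2 ^ b)) (Λ := Clause n)
    negG posG N δ (by
      intro D hD hDs x hleaf
      have := mono_advantage r N hm hr Nat.one_le_two_pow hκ D hD hDs x hleaf
      have e1 : (Fintype.card (Fin (m + 1) → Fin (2 ^ b)) : ℝ) = ((2 ^ b : ℕ) : ℝ) ^ (m + 1) := by
        rw [Fintype.card_fun, Fintype.card_fin, Fintype.card_fin]
        push_cast
        rfl
      have e2 : (Fintype.card (Vx (m + 1) (2 ^ b) → Fin m) : ℝ) =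
          (m : ℝ) ^ Fintype.card (Vx (m + 1) (2 ^ b)) := by
        rw [Fintype.card_fun, Fintype.card_fin]
        push_cast
        rfl
      rw [e1, e2, hδ]
      linarith) (dual C) (by rw [size_dual, numReads_dual, ← hN]) X hmono (by
      intro c
      rw [hX]
      exact S.leaf hb c)
  obtain ⟨φ, hφ, hchg⟩ := exists_consecutive (fun J => pathY negG ω₀ J)
    (fun y => (dual C).reads (X y)) (Fintype.card (Fin g → Bool))
  have hk : ((range (Fintype.card (Fin g → Bool))).filter fun J =>
      (fun y => (dual C).reads (X y)) ((fun J => pathY negG ω₀ J) J) ≠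
        (fun y => (dual C).reads (X y)) ((fun J => pathY negG ω₀ J) (J + 1))).card =
      changes negG (dual C) X ω₀ := by
    unfold changes
    congr
  rw [hk] at hchg
  refine ⟨changes negG (dual C) X ω₀, fun i => S.formula (pathY negG ω₀ (φ i)), ?_, ?_, ?_, ?_⟩
  · intro i
    refine ⟨(S.formula_subset _).trans h𝒞, (S.unsat_formula _).2 (not_TK_path (by omega) _ _), ?_⟩
    exact S.formula_anti (pathY_mono negG ω₀ (hφ (Nat.le_succ i)))
  · intro i hi
    apply reads_ne_dual
    have := hchg i hi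
    rw [hX] at this
    exact this
  · rw [← prod_dual]
    exact changes_le (dual C) (fun i => X (pathY negG ω₀ (φ i)))
      (fun i => hmono _ _ (pathY_mono negG ω₀ (hφ (Nat.le_succ i)))) _ hchg
  · generalize changes negG (dual C) X ω₀ = k at hω₀ ⊢
    obtain ⟨G, hG⟩ : ∃ G : ℝ, G = Fintype.card (Om g m b) := ⟨_, rfl⟩
    have hGpos : 0 < G := by
      rw [hG]
      exact_mod_cast Fintype.card_pos
    obtain ⟨w, hw⟩ : ∃ w : ℝ, w = Fintype.card (Fin (m + 1) → Fin (2 ^ b)) := ⟨_, rfl⟩
    have hwpos : 0 < w := by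
      rw [hw]
      exact_mod_cast Fintype.card_pos
    have hcn : (Fintype.card (Om g m b × (Fin n → Bool)) : ℝ) = G * (2 ^ g * w * 2 ^ r₀) := by
      rw [Fintype.card_prod, Nat.cast_mul, ← hG, hw]
      congr 1
      rw [Fintype.card_fun, Fintype.card_fun, Fintype.card_bool, Fintype.card_fin,
        Fintype.card_fin, Fintype.card_fin]
      push_cast
      rw [← hn, pow_add, pow_add, mul_comm (m + 1) b, pow_mul]
    have hg2 : (Fintype.card (Fin g → Bool) : ℝ) = 2 ^ g := by
      rw [Fintype.card_fun, Fintype.card_bool, Fintype.card_fin]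
      push_cast
      rfl
    have hA : prob (fun p => C.eval (indicator (F0 S p)) = true) =
        (∑ ω : Om g m b, ∑ β : Fin g → Bool, if (dual C).eval
          (X (pathY negG ω ((Fintype.equivFin _ β).val + 1))) = false then (1 : ℝ) else 0) /
        (G * 2 ^ g) := by
      rw [prob_eq, hcn, Fintype.sum_prod_type]
      have h1 : ∀ ω : Om g m b, ∑ α : Fin n → Bool,
          (if C.eval (indicator (F0 S (ω, α))) = true then (1 : ℝ) else 0) =
          2 ^ r₀ * (w * ∑ β : Fin g → Bool, if (dual C).eval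
          (X (pathY negG ω ((Fintype.equivFin _ β).val + 1))) = false then (1 : ℝ) else 0) := by
        intro ω
        have h2 := S.sum_cut (fun β _ => if (dual C).eval
          (X (pathY negG ω ((Fintype.equivFin _ β).val + 1))) = false then (1 : ℝ) else 0)
        have h3 : ∀ α : Fin n → Bool,
            (if C.eval (indicator (F0 S (ω, α))) = true then (1 : ℝ) else 0) =
            (if (dual C).eval (X (pathY negG ω ((Fintype.equivFin _ (S.blk α)).val + 1))) = false
              then (1 : ℝ) else 0) := by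
          intro α
          rw [heval, F0]
          simp
        rw [sum_congr rfl fun α _ => h3 α, h2]
        congr 1
        rw [mul_sum]
        apply sum_congr rfl
        intro β _
        rw [sum_const, card_univ, nsmul_eq_mul, hw]
      rw [sum_congr rfl fun ω _ => h1 ω, ← mul_sum, ← mul_sum]
      field_simp
    have hB : prob (fun p => C.eval (indicator (F1 S p)) = false) =
        (∑ ω : Om g m b, ∑ β : Fin g → Bool, (∑ t : Fin (m + 1) → Fin (2 ^ b),
          if (dual C).eval (X (Function.update (pathY negG ω (Fintype.equivFin _ β).val) β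
            (posG t))) = true then (1 : ℝ) else 0) / w) / (G * 2 ^ g) := by
      rw [prob_eq, hcn, Fintype.sum_prod_type]
      have h1 : ∀ ω : Om g m b, ∑ α : Fin n → Bool,
          (if C.eval (indicator (F1 S (ω, α))) = false then (1 : ℝ) else 0) =
          2 ^ r₀ * (w * ∑ β : Fin g → Bool, (∑ t : Fin (m + 1) → Fin (2 ^ b),
            if (dual C).eval (X (Function.update (pathY negG ω (Fintype.equivFin _ β).val) β
            (posG t))) = true then (1 : ℝ) else 0) / w) := by
        intro ω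
        have h2 := S.sum_cut (fun β t => if (dual C).eval
          (X (Function.update (pathY negG ω (Fintype.equivFin _ β).val) β (posG t))) = true
            then (1 : ℝ) else 0)
        have h3 : ∀ α : Fin n → Bool,
            (if C.eval (indicator (F1 S (ω, α))) = false then (1 : ℝ) else 0) =
            (if (dual C).eval (X (Function.update (pathY negG ω
              (Fintype.equivFin _ (S.blk α)).val) (S.blk α) (posG (S.trv α)))) = true
              then (1 : ℝ) else 0) := by
          intro α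
          rw [heval, F1]
          simp
        rw [sum_congr rfl fun α _ => h3 α, h2]
        congr 1
        rw [mul_sum]
        apply sum_congr rfl
        intro β _
        field_simp
      rw [sum_congr rfl fun ω _ => h1 ω, ← mul_sum, ← mul_sum]
      field_simp
    rw [hA, hB, ← add_div, ← sum_add_distrib, div_le_iff₀ (by positivity)]
    have h5 : (G * (2 ^ g * (1 + δ) + k) : ℝ) = (1 + (k : ℝ) / 2 ^ g + δ) * (G * 2 ^ g) := by
      field_simp
      ring
    rw [← h5, hG, ← hg2]
    refine le_trans (le_of_eq ?_) hω₀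
    apply sum_congr rfl
    intro ω _
    rw [← sum_add_distrib, hw]

end Pool.Agent.T9h36.SN
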