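import Pool.Agent.T9h34.ReadsDef
import Pool.Agent.T9h34.Approx

/-!
# The dual circuit
-/

set_option autoImplicit false

namespace Pool.Agent.T9h36.SN

open Pool.Agent.T9h34

variable {ι : Type}

/-- Dual of a source read by gate number `k`. -/
def dualSrc (k : ℕ) : Src ι → Src ι
  | .input i => .input i
  | .const b => .const (!b)
  | .gate j => if j < k then .gate j else .const true

/-- Dual of gate number `k`. -/
def dualGate (k : ℕ) : Gate ι → Gate ι
  | .and a b => .or (dualSrc k a) (dualSrc k b)
  | .or a b => .and (dualSrc k a) (dualSrc k b)
  | .other args φ => .other (args.map (dualSrc k)) fun l => !φ (l.map not)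

/-- The dual circuit. -/
def dual (C : Circuit ι) : Circuit ι :=
  ⟨C.gates.mapIdx dualGate, dualSrc C.gates.length C.out⟩

theorem eval_dualSrc (x : ι → Bool) (vals : List Bool) (k : ℕ) (hk : vals.length = k)
    (s : Src ι) : (dualSrc k s).eval (fun i => !x i) (vals.map not) = !(s.eval x vals) := by
  cases s with
  | input i => rfl
  | const b => rfl
  | gate j =>
    have h0 : dualSrc k (Src.gate j : Src ι) = if j < k then .gate j else .const true := rfl
    rw [h0]
    by_cases h : j < k
    · rw [if_pos h]
      simp only [Src.eval]
      rw [List.getD_eq_getElem?_getD, List.getD_eq_getElem?_getD, List.getElem?_map,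
        List.getElem?_eq_getElem (by omega)]
      rfl
    · rw [if_neg h]
      simp only [Src.eval]
      rw [List.getD_eq_getElem?_getD, List.getElem?_eq_none (by omega)]
      rfl

theorem map_eval_dualSrc (x : ι → Bool) (vals : List Bool) (k : ℕ) (hk : vals.length = k)
    (l : List (Src ι)) :
    (l.map (dualSrc k)).map (fun a => a.eval (fun i => !x i) (vals.map not)) =
      (l.map fun a => a.eval x vals).map not := by
  rw [List.map_map, List.map_map]
  apply List.map_congr_left
  intro a _
  exact eval_dualSrc x vals k hk a

theorem eval_dualGate (x : ι → Bool) (vals : List Bool) (k : ℕ) (hk : vals.length = k)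
    (g : Gate ι) : (dualGate k g).eval (fun i => !x i) (vals.map not) = !(g.eval x vals) := by
  cases g with
  | and a b =>
    simp only [dualGate, Gate.eval]
    rw [eval_dualSrc x vals k hk, eval_dualSrc x vals k hk, Bool.not_and]
  | or a b =>
    simp only [dualGate, Gate.eval]
    rw [eval_dualSrc x vals k hk, eval_dualSrc x vals k hk, Bool.not_or]
  | other args φ =>
    simp only [dualGate, Gate.eval]
    rw [map_eval_dualSrc x vals k hk, List.map_map]
    have : (not ∘ not : Bool → Bool) = id := by
      funext b
      simp
    rw [this, List.map_id]

theorem run_dual (x : ι → Bool) (gs : List (Gate ι)) :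
    runGates (fun i => !x i) (gs.mapIdx dualGate) = (runGates x gs).map not := by
  induction gs using List.reverseRecOn with
  | nil => rfl
  | append_singleton gs g ih =>
    rw [List.mapIdx_append, runGates_append, List.map_append]
    have h1 : List.mapIdx (fun i => dualGate (i + gs.length)) [g] = [dualGate gs.length g] := by
      simp
    rw [h1, runGates_append, ih, eval_dualGate x _ _ (length_runGates x gs)]
    rfl

theorem eval_dual (C : Circuit ι) (x : ι → Bool) :
    (dual C).eval (fun i => !x i) = !(C.eval x) := by
  unfold dual Circuit.eval
  simp only
  rw [run_dual, eval_dualSrc x _ _ (length_runGates x C.gates)]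

theorem size_dual (C : Circuit ι) : (dual C).size = C.size := by
  simp [dual, Circuit.size]

theorem args_dualGate (k : ℕ) (g : Gate ι) : (dualGate k g).args = g.args.map (dualSrc k) := by
  cases g <;> rfl

theorem numReads_dual (C : Circuit ι) : (dual C).numReads = C.numReads := by
  unfold dual Circuit.numReads
  simp only
  congr 1
  apply List.ext_getElem
  · simp
  · intro i h1 h2
    simp [args_dualGate]

theorem prod_dual (C : Circuit ι) : ((dual C).gates.map fun g => g.args.length + 1).prod =
    (C.gates.map fun g => g.args.length + 1).prod := by
  unfold dual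
  simp only
  congr 1
  apply List.ext_getElem
  · simp
  · intro i h1 h2
    simp [args_dualGate]

theorem readsAt_dual (C : Circuit ι) (x : ι → Bool) (j : ℕ) :
    (dual C).readsAt (fun i => !x i) j = (C.readsAt x j).map not := by
  unfold Circuit.readsAt
  have h1 : (dual C).gates = C.gates.mapIdx dualGate := rfl
  rw [h1, List.getElem?_mapIdx]
  by_cases hj : j < C.gates.length
  · rw [List.getElem?_eq_getElem hj]
    simp only [Option.map_some]
    rw [args_dualGate]
    have h2 : (C.gates.mapIdx dualGate).take j = (C.gates.take j).mapIdx dualGate := by
      apply List.ext_getElem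
      · simp
      · intro i h1 h2
        simp
    rw [h2, run_dual]
    apply map_eval_dualSrc
    rw [length_runGates, List.length_take]
    omega
  · rw [List.getElem?_eq_none (by omega)]
    rfl

theorem reads_dual (C : Circuit ι) (x : ι → Bool) :
    (dual C).reads (fun i => !x i) = (C.reads x).map (List.map not) := by
  unfold Circuit.reads
  rw [List.map_map]
  have h1 : (dual C).gates.length = C.gates.length := by simp [dual]
  rw [h1]
  apply List.map_congr_left
  intro j _
  exact readsAt_dual C x j

theorem reads_ne_dual (C : Circuit ι) (x y : ι → Bool)
    (h : (dual C).reads (fun i => !x i) ≠ (dual C).reads (fun i => !y i)) :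
    C.reads x ≠ C.reads y := by
  intro hxy
  apply h
  rw [reads_dual, reads_dual, hxy]

end Pool.Agent.T9h36.SN
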