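import Pool.Agent.T9h36.SN.Main
import Pool.Agent.T9h36.SN.Levels

set_option autoImplicit false

/-!
# The final form
-/

namespace Pool.Agent.T9h36.SN

open Pool.Agent.T9h34 (Circuit)

theorem final (ε : ℝ) (hε : 0 < ε) : ∃ A : ℕ, 0 < A ∧ ∀ n W : ℕ, W ≤ n →
    ∃ 𝒞 : Finset (Clause n), 𝒞.card ≤ 2 ^ W ∧ (∀ c ∈ 𝒞, c.card ≤ W) ∧
      ∀ g : ℕ, g + A * (Nat.log 2 n + 1) ≤ W →
      ∃ (Ω : Type) (_ : Fintype Ω) (_ : Nonempty Ω)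
        (F₀ F₁ : Ω × (Fin n → Bool) → Finset (Clause n)),
        (∀ p, F₀ p ⊆ 𝒞 ∧ Unsat (F₀ p)) ∧ (∀ p, F₁ p ⊆ 𝒞 ∧ Satisfies p.2 (F₁ p)) ∧
        ∀ C : Circuit (Clause n), ∃ (m : ℕ) (F : ℕ → Finset (Clause n)),
          (∀ i, F i ⊆ 𝒞 ∧ Unsat (F i) ∧ F (i + 1) ⊆ F i) ∧
          (∀ i < m, C.reads (indicator (F i)) ≠ C.reads (indicator (F (i + 1)))) ∧
          (∀ lev, IsLevel C lev → m + 1 ≤ levelProduct C lev) ∧
          prob (fun p => C.eval (indicator (F₀ p)) = true) +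
            prob (fun p => C.eval (indicator (F₁ p)) = false) ≤
          1 + (m : ℝ) / 2 ^ g +
            (C.size + C.numReads + 1 : ℕ) * 2 ^ g / 2 ^ ((1 - ε) * n) := by
  obtain ⟨A, hA, h⟩ := main ε hε
  refine ⟨A, hA, fun n W hW => ?_⟩
  obtain ⟨𝒞, h1, h2, h3⟩ := h n W hW
  refine ⟨𝒞, h1, h2, fun g hg => ?_⟩
  obtain ⟨Ω, i1, i2, F₀, F₁, g1, g2, g3⟩ := h3 g hg
  refine ⟨Ω, i1, i2, F₀, F₁, g1, g2, fun C => ?_⟩
  obtain ⟨m, F, k1, k2, -, k4⟩ := g3 C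
  refine ⟨m, F, k1, k2, fun lev hlev => ?_, k4⟩
  apply changes_le_level' C lev hlev (fun i => indicator (F i)) _ m k2
  intro i c hc
  simp only [indicator, decide_eq_true_eq] at hc ⊢
  exact (k1 i).2.2 hc

end Pool.Agent.T9h36.SN
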