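import Pool.Agent.T9h36.SN.Avg

/-!
# The choice of the parameters
-/

set_option autoImplicit false

namespace Pool.Agent.T9h36.SN

open Finset Pool.Agent.T9h35.Sharp Pool.Agent.T9h35.NearBF
open Pool.Agent.T9h34 (Circuit)

/-- The bound for the number of small sets. -/
theorem NS_bound {n m b L : ℕ} (hL : n < 2 ^ L) (hLb : L ≤ b) (hmb : (m + 1) * b ≤ n)
    (hb : 1 ≤ b) : NS (Vx (m + 1) (2 ^ b)) m ≤ 2 ^ (2 * n) := by
  have hm1 : m + 1 ≤ n := (Nat.le_mul_of_pos_right _ hb).trans hmb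
  have hmbn : m * b ≤ n := (Nat.mul_le_mul_right _ (Nat.le_succ m)).trans hmb
  have h3 := NS_le (Vx (m + 1) (2 ^ b)) m
  rw [Fintype.card_prod, Fintype.card_fin, Fintype.card_fin] at h3
  have h4 : (m + 1) * 2 ^ b + 1 ≤ 2 ^ (L + b) := by
    have h5 : m + 2 ≤ 2 ^ L := by omega
    have h6 : 1 ≤ 2 ^ b := Nat.one_le_two_pow
    calc (m + 1) * 2 ^ b + 1 ≤ (m + 1) * 2 ^ b + 2 ^ b := by omega
      _ = (m + 2) * 2 ^ b := by ring
      _ ≤ 2 ^ L * 2 ^ b := Nat.mul_le_mul_right _ h5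
      _ = 2 ^ (L + b) := (pow_add _ _ _).symm
  calc NS (Vx (m + 1) (2 ^ b)) m ≤ ((m + 1) * 2 ^ b + 1) ^ m := h3
    _ ≤ (2 ^ (L + b)) ^ m := Nat.pow_le_pow_left h4 m
    _ = 2 ^ ((L + b) * m) := (pow_mul _ _ _).symm
    _ ≤ 2 ^ (2 * n) := by
        apply Nat.pow_le_pow_right (by norm_num)
        nlinarith

/-- The bound for the loss. -/
theorem loss_bound {n m L : ℕ} (hL : n < 2 ^ L) (hL1 : 1 ≤ L) (hm : m + 1 ≤ n) :
    (2 ^ (m + 1) * (2 * m * (m * (4 * n + 3))) ^ m) ^ 2 ≤ 2 ^ (14 * L * (m + 1)) := by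
  have h1 : 2 * m * (m * (4 * n + 3)) ≤ 2 ^ (6 * L) := by
    have h2 : m ≤ 2 ^ L := by omega
    have h3 : 4 * n + 3 ≤ 2 ^ (L + 2) := by
      rw [pow_add]
      omega
    calc 2 * m * (m * (4 * n + 3)) ≤ 2 * 2 ^ L * (2 ^ L * 2 ^ (L + 2)) :=
          Nat.mul_le_mul (Nat.mul_le_mul_left _ h2) (Nat.mul_le_mul h2 h3)
      _ = 2 ^ (3 * L + 3) := by ring
      _ ≤ 2 ^ (6 * L) := Nat.pow_le_pow_right (by norm_num) (by omega)
  have h2 : 2 ^ (m + 1) * (2 * m * (m * (4 * n + 3))) ^ m ≤ 2 ^ (7 * L * (m + 1)) := by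
    calc 2 ^ (m + 1) * (2 * m * (m * (4 * n + 3))) ^ m
        ≤ 2 ^ (L * (m + 1)) * (2 ^ (6 * L)) ^ (m + 1) := by
          apply Nat.mul_le_mul
          · exact Nat.pow_le_pow_right (by norm_num) (Nat.le_mul_of_pos_left _ hL1)
          · exact (Nat.pow_le_pow_left h1 m).trans
              (Nat.pow_le_pow_right Nat.one_le_two_pow (Nat.le_succ m))
      _ = 2 ^ (7 * L * (m + 1)) := by
          rw [← pow_mul, ← pow_add]
          congr 1
          ring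
  calc (2 ^ (m + 1) * (2 * m * (m * (4 * n + 3))) ^ m) ^ 2
      ≤ (2 ^ (7 * L * (m + 1))) ^ 2 := Nat.pow_le_pow_left h2 2
    _ = 2 ^ (14 * L * (m + 1)) := by
        rw [← pow_mul]
        congr 1
        ring

/-- The groups are large enough. -/
theorem group_bound {n m b L : ℕ} (hL : n < 2 ^ L) (hL1 : 1 ≤ L) (hm : m + 1 ≤ n)
    (hb : 10 * L ≤ b) : 2 * (m + 1) * (2 * m * (2 * m * (m * (4 * n + 3)))) ≤ 2 ^ b := by
  have h1 : m + 1 ≤ 2 ^ L := by omega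
  have h2 : m ≤ 2 ^ L := by omega
  have h3 : 4 * n + 3 ≤ 2 ^ (L + 2) := by
    rw [pow_add]
    omega
  calc 2 * (m + 1) * (2 * m * (2 * m * (m * (4 * n + 3))))
      ≤ 2 * 2 ^ L * (2 * 2 ^ L * (2 * 2 ^ L * (2 ^ L * 2 ^ (L + 2)))) := by gcongr
    _ = 2 ^ (5 * L + 5) := by ring
    _ ≤ 2 ^ b := Nat.pow_le_pow_right (by norm_num) (by omega)

/-- The final estimate. -/
theorem final_estimate {ε : ℝ} {n g κ b r₀ L S q s : ℕ} (hcut : g + κ * b + r₀ = n)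
    (hS : 1 ≤ S) (hq : q ≤ 2 ^ (14 * L * κ)) (hs : s ≤ 2 ^ (2 * n))
    (hexp : ((14 * L * κ + r₀ + 1 : ℕ) : ℝ) ≤ ε * n) :
    ((S * q : ℕ) : ℝ) / ((2 ^ b : ℕ) : ℝ) ^ κ + (((3 * S + 1) * s : ℕ) : ℝ) / 2 ^ (4 * n + 3) ≤
      S * 2 ^ g / 2 ^ ((1 - ε) * n) := by
  have hSr : (1 : ℝ) ≤ S := by exact_mod_cast hS
  have h2n : (0 : ℝ) < 2 ^ n := by positivity
  have h1 : ((S * q : ℕ) : ℝ) / ((2 ^ b : ℕ) : ℝ) ^ κ ≤
      S * (2 ^ (g + (14 * L * κ + r₀)) / 2 ^ n) := by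
    have hq' : (q : ℝ) ≤ 2 ^ (14 * L * κ) := by exact_mod_cast hq
    have e1 : ((2 ^ b : ℕ) : ℝ) ^ κ * 2 ^ (g + r₀) = 2 ^ n := by
      push_cast
      rw [← pow_mul, ← pow_add]
      congr 1
      rw [← hcut]
      ring
    have e2 : (0 : ℝ) < ((2 ^ b : ℕ) : ℝ) ^ κ := by positivity
    rw [div_le_iff₀ e2]
    calc ((S * q : ℕ) : ℝ) = S * q := by push_cast; ring
      _ ≤ S * 2 ^ (14 * L * κ) := by gcongr
      _ = S * (2 ^ (g + (14 * L * κ + r₀)) / 2 ^ n) * ((2 ^ b : ℕ) : ℝ) ^ κ := by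
          rw [← e1, pow_add 2 g, pow_add 2 (14 * L * κ), pow_add 2 g r₀]
          field_simp
  have h2 : (((3 * S + 1) * s : ℕ) : ℝ) / 2 ^ (4 * n + 3) ≤ S * (1 / 2 ^ n) := by
    have hs' : (s : ℝ) ≤ 2 ^ (2 * n) := by exact_mod_cast hs
    have e3 : (2 : ℝ) ^ (4 * n + 3) = 2 ^ (2 * n) * 2 ^ n * (2 ^ n * 8) := by
      rw [pow_add, mul_comm 4 n, pow_mul, mul_comm 2 n, pow_mul]
      norm_num
      have : (16 : ℝ) ^ n = 4 ^ n * 2 ^ n * 2 ^ n := by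
        rw [← mul_pow, ← mul_pow]
        norm_num
      have e4 : ((2 : ℝ) ^ n) ^ 4 = (2 ^ n) ^ 2 * 2 ^ n * 2 ^ n := by ring
      rw [e4]
      ring
    rw [div_le_iff₀ (by positivity), e3]
    have h3 : (1 : ℝ) ≤ 2 ^ n := one_le_pow₀ (by norm_num)
    have h4 : (((3 * S + 1) * s : ℕ) : ℝ) ≤ 4 * S * 2 ^ (2 * n) := by
      push_cast
      calc (3 * (S : ℝ) + 1) * s ≤ (3 * (S : ℝ) + 1) * 2 ^ (2 * n) := by gcongr
        _ ≤ 4 * S * 2 ^ (2 * n) := by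
            apply mul_le_mul_of_nonneg_right _ (by positivity)
            linarith
    have h5 : (0 : ℝ) < 2 ^ (2 * n) := by positivity
    calc (((3 * S + 1) * s : ℕ) : ℝ) ≤ 4 * S * 2 ^ (2 * n) := h4
      _ = S * 2 ^ (2 * n) * 4 := by ring
      _ ≤ S * 2 ^ (2 * n) * (2 ^ n * 8) := by
          apply mul_le_mul_of_nonneg_left _ (by positivity)
          linarith
      _ = S * (1 / 2 ^ n) * (2 ^ (2 * n) * 2 ^ n * (2 ^ n * 8)) := by
          field_simp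
  have h3 : (2 : ℝ) ^ (g + (14 * L * κ + r₀)) / 2 ^ n + 1 / 2 ^ n ≤
      2 ^ g / 2 ^ ((1 - ε) * n) := by
    rw [← add_div, div_le_div_iff₀ h2n (by positivity)]
    calc ((2 : ℝ) ^ (g + (14 * L * κ + r₀)) + 1) * 2 ^ ((1 - ε) * n)
        ≤ (2 ^ (g + (14 * L * κ + r₀)) + 2 ^ (g + (14 * L * κ + r₀))) * 2 ^ ((1 - ε) * n) := by
          gcongr
          exact one_le_pow₀ (by norm_num)
      _ = 2 ^ g * (2 ^ (14 * L * κ + r₀ + 1) * 2 ^ ((1 - ε) * n)) := by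
          rw [pow_add 2 g, pow_succ 2 (14 * L * κ + r₀)]
          ring
      _ = 2 ^ g * 2 ^ (((14 * L * κ + r₀ + 1 : ℕ) : ℝ) + (1 - ε) * n) := by
          rw [Real.rpow_add (by norm_num), Real.rpow_natCast]
      _ ≤ 2 ^ g * 2 ^ (n : ℝ) := by
          apply mul_le_mul_of_nonneg_left _ (by positivity)
          apply Real.rpow_le_rpow_of_exponent_le (by norm_num)
          linarith
      _ = 2 ^ g * 2 ^ n := by rw [Real.rpow_natCast]
  calc ((S * q : ℕ) : ℝ) / ((2 ^ b : ℕ) : ℝ) ^ κ + (((3 * S + 1) * s : ℕ) : ℝ) / 2 ^ (4 * n + 3)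
      ≤ S * (2 ^ (g + (14 * L * κ + r₀)) / 2 ^ n) + S * (1 / 2 ^ n) := add_le_add h1 h2
    _ = S * (2 ^ (g + (14 * L * κ + r₀)) / 2 ^ n + 1 / 2 ^ n) := by ring
    _ ≤ S * (2 ^ g / 2 ^ ((1 - ε) * n)) := mul_le_mul_of_nonneg_left h3 (by linarith)
    _ = S * 2 ^ g / 2 ^ ((1 - ε) * n) := by ring

/-- A formula without a change. -/
theorem trivial_chain {n g m b r₀ : ℕ} (S : Cut n g (m + 1) b r₀) (hm : 1 ≤ m)
    (𝒞 : Finset (Clause n)) (h𝒞 : S.clauses ⊆ 𝒞) (C : Circuit (Clause n)) :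
    ∃ F : ℕ → Finset (Clause n), (∀ i, F i ⊆ 𝒞 ∧ Unsat (F i) ∧ F (i + 1) ⊆ F i) ∧
      (∀ i < 0, C.reads (indicator (F i)) ≠ C.reads (indicator (F (i + 1)))) ∧
      0 + 1 ≤ (C.gates.map fun g => g.args.length + 1).prod := by
  refine ⟨fun _ => S.formula fun _ => ∅, fun i => ⟨(S.formula_subset _).trans h𝒞, ?_,
    Subset.refl _⟩, fun i hi => absurd hi (by omega), ?_⟩
  · rw [S.unsat_formula]
    exact fun β => not_TK_empty (by omega)
  · exact changes_le C (fun _ => indicator ∅) (fun _ _ h => h) 0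
      (fun i hi => absurd hi (by omega))

theorem main (ε : ℝ) (hε : 0 < ε) : ∃ A : ℕ, 0 < A ∧ ∀ n W : ℕ, W ≤ n →
    ∃ 𝒞 : Finset (Clause n), 𝒞.card ≤ 2 ^ W ∧ (∀ c ∈ 𝒞, c.card ≤ W) ∧
      ∀ g : ℕ, g + A * (Nat.log 2 n + 1) ≤ W →
      ∃ (Ω : Type) (_ : Fintype Ω) (_ : Nonempty Ω)
        (F₀ F₁ : Ω × (Fin n → Bool) → Finset (Clause n)),
        (∀ p, F₀ p ⊆ 𝒞 ∧ Unsat (F₀ p)) ∧ (∀ p, F₁ p ⊆ 𝒞 ∧ Satisfies p.2 (F₁ p)) ∧
        ∀ C : Circuit (Clause n), ∃ (m : ℕ) (F : ℕ → Finset (Clause n)),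
          (∀ i, F i ⊆ 𝒞 ∧ Unsat (F i) ∧ F (i + 1) ⊆ F i) ∧
          (∀ i < m, C.reads (indicator (F i)) ≠ C.reads (indicator (F (i + 1)))) ∧
          m + 1 ≤ (C.gates.map fun g => g.args.length + 1).prod ∧
          prob (fun p => C.eval (indicator (F₀ p)) = true) +
            prob (fun p => C.eval (indicator (F₁ p)) = false) ≤
          1 + (m : ℝ) / 2 ^ g +
            (C.size + C.numReads + 1 : ℕ) * 2 ^ g / 2 ^ ((1 - ε) * n) := by
  obtain ⟨B, hB⟩ : ∃ B, B = ⌈28 / ε⌉₊ + 10 := ⟨_, rfl⟩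
  have hB0 : 28 / ε ≤ B := by
    have h := Nat.le_ceil (28 / ε)
    have h2 : (B : ℝ) = ⌈28 / ε⌉₊ + 10 := by exact_mod_cast hB
    linarith
  have hBε : 28 ≤ ε * B := by
    rw [div_le_iff₀ hε] at hB0
    linarith
  have hB10 : 10 ≤ B := by omega
  obtain ⟨A₀, hA₀⟩ : ∃ A₀, A₀ = ⌈(5 * B + 3) / ε⌉₊ := ⟨_, rfl⟩
  have hA₀ε : 5 * (B : ℝ) + 3 ≤ ε * A₀ := by
    have h : (5 * (B : ℝ) + 3) / ε ≤ A₀ := by
      rw [hA₀]
      exact Nat.le_ceil _
    rw [div_le_iff₀ hε] at h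
    linarith
  refine ⟨A₀ + (5 * B + 3), by omega, ?_⟩
  intro n W hWn
  obtain ⟨L, hL⟩ : ∃ L, L = Nat.log 2 n + 1 := ⟨_, rfl⟩
  rw [← hL]
  by_cases hAW : (A₀ + (5 * B + 3)) * L ≤ W
  swap
  · exact ⟨∅, by simp, by simp, fun g hg => absurd (le_trans (Nat.le_add_left _ _) hg) hAW⟩
  have hL1 : 1 ≤ L := by omega
  have hnL : n < 2 ^ L := by
    rw [hL]
    exact Nat.lt_pow_succ_log_self (by norm_num) n
  obtain ⟨b, hb⟩ : ∃ b, b = B * L := ⟨_, rfl⟩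
  have hLb10 : 10 * L ≤ b := by
    rw [hb]
    exact Nat.mul_le_mul_right _ hB10
  have hLb : L ≤ b := by omega
  have hb1 : 1 ≤ b := by omega
  have hA₀W : A₀ * L ≤ W := (Nat.mul_le_mul_right _ (Nat.le_add_right _ _)).trans hAW
  have hBW : (5 * B + 3) * L ≤ W := (Nat.mul_le_mul_right _ (Nat.le_add_left _ _)).trans hAW
  have hBW' : 5 * b + 3 * L ≤ W := by
    have : (5 * B + 3) * L = 5 * b + 3 * L := by rw [hb]; ring
    omega
  have hWn' : (W : ℝ) ≤ n := by exact_mod_cast hWn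
  have hεn : 5 * (b : ℝ) + 3 * L ≤ ε * n := by
    have h1 : (A₀ : ℝ) * L ≤ W := by exact_mod_cast hA₀W
    have h2 : (b : ℝ) = B * L := by exact_mod_cast hb
    have h3 : (0 : ℝ) ≤ L := Nat.cast_nonneg L
    calc 5 * (b : ℝ) + 3 * L = (5 * B + 3) * L := by rw [h2]; ring
      _ ≤ ε * A₀ * L := mul_le_mul_of_nonneg_right hA₀ε h3
      _ = ε * (A₀ * L) := by ring
      _ ≤ ε * n := mul_le_mul_of_nonneg_left (h1.trans hWn') hε.le
  obtain ⟨G, hG⟩ : ∃ G, G = W - (2 * b + 2 * L + 1) := ⟨_, rfl⟩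
  have hGW : G + (2 * b + 2 * L + 1) = W := by omega
  -- the ways to cut
  have hcut : ∀ g, g ≤ G → ∃ m r₀, 1 ≤ m ∧ g + (m + 1) * b + r₀ = n ∧ r₀ < b := by
    intro g hg
    have h2b : 2 * b ≤ n - g := by omega
    have h1 : 2 ≤ (n - g) / b := (Nat.le_div_iff_mul_le (by omega)).2 h2b
    refine ⟨(n - g) / b - 1, (n - g) % b, by omega, ?_, Nat.mod_lt _ (by omega)⟩
    have h2 := Nat.div_add_mod (n - g) b
    have h3 : (n - g) / b - 1 + 1 = (n - g) / b := by omega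
    rw [h3, mul_comm]
    omega
  choose! m r₀ hm1 hcutn hr₀ using hcut
  obtain ⟨S⟩ : Nonempty (∀ g, g ≤ G → Cut n g (m g + 1) b (r₀ g)) :=
    ⟨fun g hg => (exists_cut n g (m g + 1) b (r₀ g) (hcutn g hg)).some⟩
  classical
  obtain ⟨𝒞, h𝒞⟩ : ∃ 𝒞 : Finset (Clause n), 𝒞 = (range (G + 1)).biUnion fun g =>
      if h : g ≤ G then (S g h).clauses else ∅ := ⟨_, rfl⟩
  have hsub : ∀ g (h : g ≤ G), (S g h).clauses ⊆ 𝒞 := by
    intro g h c hc
    rw [h𝒞]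
    refine mem_biUnion.2 ⟨g, mem_range.2 (by omega), ?_⟩
    rw [dif_pos h]
    exact hc
  have hmn : ∀ g, g ≤ G → (m g + 1) * b ≤ n := by
    intro g hg
    have := hcutn g hg
    omega
  have hmn1 : ∀ g, g ≤ G → m g + 1 ≤ n := fun g hg =>
    (Nat.le_mul_of_pos_right _ hb1).trans (hmn g hg)
  refine ⟨𝒞, ?_, ?_, ?_⟩
  · rw [h𝒞]
    have h1 : ∀ g ∈ range (G + 1), (if h : g ≤ G then (S g h).clauses else ∅).card ≤
        2 ^ g * 2 ^ (2 * L + 2 * b) := by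
      intro g hg
      have hg' : g ≤ G := by
        rw [mem_range] at hg
        omega
      rw [dif_pos hg']
      refine (S g hg').card_clauses.trans (Nat.mul_le_mul_left _ ?_)
      calc ((m g + 1) * 2 ^ b) ^ 2 ≤ (2 ^ L * 2 ^ b) ^ 2 := by
            apply Nat.pow_le_pow_left
            apply Nat.mul_le_mul_right
            have := hmn1 g hg'
            omega
        _ = 2 ^ (2 * L + 2 * b) := by ring
    calc ((range (G + 1)).biUnion fun g => if h : g ≤ G then (S g h).clauses else ∅).card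
        ≤ ∑ g ∈ range (G + 1), 2 ^ g * 2 ^ (2 * L + 2 * b) :=
          card_biUnion_le.trans (sum_le_sum h1)
      _ = (∑ g ∈ range (G + 1), 2 ^ g) * 2 ^ (2 * L + 2 * b) := by rw [sum_mul]
      _ ≤ 2 ^ (G + 1) * 2 ^ (2 * L + 2 * b) := by
          apply Nat.mul_le_mul_right
          have := Nat.geomSum_eq (m := 2) le_rfl (G + 1)
          rw [this]
          have h5 : (2 - 1 : ℕ) = 1 := rfl
          rw [h5, Nat.div_one]
          exact Nat.sub_le _ _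
      _ = 2 ^ W := by
          rw [← pow_add, ← hGW]
          congr 1
          ring
  · intro c hc
    rw [h𝒞] at hc
    obtain ⟨g, hg, hc⟩ := mem_biUnion.1 hc
    have hg' : g ≤ G := by
      rw [mem_range] at hg
      omega
    rw [dif_pos hg'] at hc
    have := (S g hg').width_clauses c hc
    omega
  · intro g hgW
    have hgG : g ≤ G := by
      have h1 : (5 * B + 3) * L ≤ (A₀ + (5 * B + 3)) * L :=
        Nat.mul_le_mul_right _ (Nat.le_add_left _ _)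
      have h2 : (5 * B + 3) * L = 5 * b + 3 * L := by rw [hb]; ring
      omega
    have hmg := hm1 g hgG
    have : Nonempty (Fin (m g)) := ⟨⟨0, by omega⟩⟩
    refine ⟨Om g (m g) b, inferInstance, inferInstance, F0 (S g hgG), F1 (S g hgG),
      fun p => ⟨((S g hgG).formula_subset _).trans (hsub g hgG), unsat_F0 hmg _ p⟩,
      fun p => ⟨((S g hgG).formula_subset _).trans (hsub g hgG), satisfies_F1 _ p⟩, ?_⟩
    intro C
    obtain ⟨N, hN⟩ : ∃ N, N = C.size + C.numReads + 1 := ⟨_, rfl⟩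
    rw [← hN]
    have hN1' : 1 ≤ N := by omega
    have hN1 : (1 : ℝ) ≤ N := by exact_mod_cast hN1'
    by_cases htriv : n ≤ g + 3 * b
    · obtain ⟨F, hF1, hF2, hF3⟩ := trivial_chain (S g hgG) hmg 𝒞 (hsub g hgG) C
      refine ⟨0, F, hF1, hF2, hF3, ?_⟩
      have h2 : (2 : ℝ) ^ ((1 - ε) * n) ≤ N * 2 ^ g := by
        have h3 : (n : ℝ) ≤ g + 3 * b := by exact_mod_cast htriv
        calc (2 : ℝ) ^ ((1 - ε) * n) ≤ 2 ^ (g : ℝ) := by
              apply Real.rpow_le_rpow_of_exponent_le (by norm_num)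
              have h4 : (0 : ℝ) ≤ L := Nat.cast_nonneg L
              have h5 : (0 : ℝ) ≤ b := Nat.cast_nonneg b
              linarith
          _ = 1 * 2 ^ g := by rw [Real.rpow_natCast, one_mul]
          _ ≤ N * 2 ^ g := by gcongr
      have h3 : (1 : ℝ) ≤ N * 2 ^ g / 2 ^ ((1 - ε) * n) := by
        rw [one_le_div (by positivity)]
        exact h2
      have h4 := prob_le_one (fun p => C.eval (indicator (F0 (S g hgG) p)) = true)
      have h5 := prob_le_one (fun p => C.eval (indicator (F1 (S g hgG) p)) = false)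
      rw [Nat.cast_zero, zero_div, add_zero]
      linarith
    · push Not at htriv
      have hm2 : 2 ≤ m g := by
        by_contra hcon
        have h1 : m g = 1 := by omega
        have h2 := hcutn g hgG
        rw [h1] at h2
        have h3 := hr₀ g hgG
        omega
      obtain ⟨k, F, hF1, hF2, hF3, hF4⟩ := core_average (S g hgG) (hcutn g hgG) hb1 hm2 𝒞
        (hsub g hgG) (4 * n + 3) (by omega) (group_bound hnL hL1 (hmn1 g hgG) hLb10) C
      refine ⟨k, F, hF1, hF2, hF3, ?_⟩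
      rw [← hN] at hF4
      refine hF4.trans (add_le_add_right (final_estimate (L := L) (hcutn g hgG) hN1'
        (loss_bound hnL hL1 (hmn1 g hgG)) (NS_bound hnL hLb (hmn g hgG) hb1) ?_) _)
      have h1 : ((14 * L * (m g + 1) : ℕ) : ℝ) ≤ ε * n / 2 := by
        have h2 : ((m g + 1) * b : ℕ) ≤ n := hmn g hgG
        have h3 : ((m g + 1 : ℕ) : ℝ) * (B * L) ≤ n := by
          rw [hb] at h2
          exact_mod_cast h2
        have h4 : (0 : ℝ) ≤ ((m g + 1 : ℕ) : ℝ) * L := by positivity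
        have h5 : 28 * (((m g + 1 : ℕ) : ℝ) * L) ≤ ε * n := by
          calc 28 * (((m g + 1 : ℕ) : ℝ) * L) ≤ ε * B * (((m g + 1 : ℕ) : ℝ) * L) :=
                mul_le_mul_of_nonneg_right hBε h4
            _ = ε * (((m g + 1 : ℕ) : ℝ) * (B * L)) := by ring
            _ ≤ ε * n := mul_le_mul_of_nonneg_left h3 hε.le
        have h6 : ((14 * L * (m g + 1) : ℕ) : ℝ) = 14 * (((m g + 1 : ℕ) : ℝ) * L) := by
          push_cast
          ring
        rw [h6]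
        linarith
      have h2 : ((r₀ g + 1 : ℕ) : ℝ) ≤ ε * n / 2 := by
        have h3 : ((r₀ g + 1 : ℕ) : ℝ) ≤ b := by exact_mod_cast hr₀ g hgG
        have h4 : (0 : ℝ) ≤ L := Nat.cast_nonneg L
        have h5 : (0 : ℝ) ≤ b := Nat.cast_nonneg b
        linarith
      have h3 : ((14 * L * (m g + 1) + r₀ g + 1 : ℕ) : ℝ) =
          ((14 * L * (m g + 1) : ℕ) : ℝ) + ((r₀ g + 1 : ℕ) : ℝ) := by
        push_cast
        ring
      rw [h3]
      linarith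

end Pool.Agent.T9h36.SN
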