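import Pool.Agent.T9h36.SN.Defs
import Pool.Agent.T9h35.NearBF.Chain
import Pool.Agent.T9h36.SN.Dual

/-!
# Formulas made of disjoint copies of the clique problem
-/

set_option autoImplicit false

namespace Pool.Agent.T9h36.SN

open Finset Pool.Agent.T9h34 Pool.Agent.T9h35.Sharp Pool.Agent.T9h35.NearBF

/-- A way to cut the `n` variables into `g` guards, `κ` groups of `b` variables, and `r` others. -/
structure Cut (n g κ b r : ℕ) where
  E : Fin n ≃ (Fin g ⊕ (Fin κ × Fin b)) ⊕ Fin r
  bits : Fin (2 ^ b) ≃ (Fin b → Bool)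

variable {n g κ b r : ℕ}

theorem exists_cut (n g κ b r : ℕ) (h : g + κ * b + r = n) : Nonempty (Cut n g κ b r) := by
  refine ⟨⟨Fintype.equivOfCardEq ?_, Fintype.equivOfCardEq ?_⟩⟩
  · simp [h]
  · simp

namespace Cut

variable (S : Cut n g κ b r)

/-- The guards. -/
def vg (p : Fin g) : Fin n := S.E.symm (.inl (.inl p))

/-- The variables of the groups. -/
def vx (i : Fin κ) (p : Fin b) : Fin n := S.E.symm (.inl (.inr (i, p)))

/-- The number of the block in which the assignment lies. -/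
def blk (α : Fin n → Bool) : Fin g → Bool := fun p => α (S.vg p)

/-- The transversal of the assignment. -/
def trv (α : Fin n → Bool) : Fin κ → Fin (2 ^ b) := fun i => S.bits.symm fun p => α (S.vx i p)

/-- The assignment with given parts. -/
def mk' (β : Fin g → Bool) (φ : Fin κ → Fin (2 ^ b)) (ρ : Fin r → Bool) : Fin n → Bool :=
  fun v => match S.E v with
    | .inl (.inl p) => β p
    | .inl (.inr (i, p)) => S.bits (φ i) p
    | .inr p => ρ p

theorem blk_mk (β : Fin g → Bool) (φ : Fin κ → Fin (2 ^ b)) (ρ : Fin r → Bool) :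
    S.blk (S.mk' β φ ρ) = β := by
  funext p
  simp [blk, mk', vg]

theorem trv_mk (β : Fin g → Bool) (φ : Fin κ → Fin (2 ^ b)) (ρ : Fin r → Bool) :
    S.trv (S.mk' β φ ρ) = φ := by
  funext i
  simp only [trv]
  rw [Equiv.symm_apply_eq]
  funext p
  simp [mk', vx]

theorem bits_trv (α : Fin n → Bool) (i : Fin κ) (p : Fin b) :
    S.bits (S.trv α i) p = α (S.vx i p) := by
  simp [trv]

/-- The number of assignments with given block and transversal. -/
theorem card_fiber [DecidableEq (Fin g → Bool)] [DecidableEq (Fin κ → Fin (2 ^ b))]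
    (β : Fin g → Bool) (φ : Fin κ → Fin (2 ^ b)) :
    (univ.filter fun α : Fin n → Bool => S.blk α = β ∧ S.trv α = φ).card ≤ 2 ^ r := by
  have h : (univ : Finset (Fin r → Bool)).card = 2 ^ r := by simp
  rw [← h]
  apply card_le_card_of_injOn (fun α p => α (S.E.symm (.inr p))) (fun _ _ => mem_univ _)
  intro α hα α' hα' heq
  rw [mem_coe, mem_filter] at hα hα'
  obtain ⟨-, h1, h2⟩ := hα
  obtain ⟨-, h3, h4⟩ := hα'
  funext v
  obtain ⟨x, rfl⟩ := S.E.symm.surjective v
  rcases x with (p | ⟨i, p⟩) | p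
  · exact congrFun (h1.trans h3.symm) p
  · have h5 : S.trv α i = S.trv α' i := congrFun (h2.trans h4.symm) i
    have h6 := S.bits_trv α i p
    rw [h5, S.bits_trv α' i p] at h6
    exact h6.symm
  · exact congrFun heq p

/-- The clause for the block `β` and the edge `e`. -/
def cl (β : Fin g → Bool) (e : EE κ (2 ^ b)) : Clause n :=
  (univ.image fun p => (S.vg p, !β p)) ∪
    ((univ.image fun p => (S.vx e.1.1.1 p, !(S.bits e.1.1.2 p))) ∪
      (univ.image fun p => (S.vx e.1.2.1 p, !(S.bits e.1.2.2 p))))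

theorem card_cl (β : Fin g → Bool) (e : EE κ (2 ^ b)) : (S.cl β e).card ≤ g + 2 * b := by
  have h1 : (univ.image fun p => (S.vg p, !β p)).card ≤ g := by
    refine card_image_le.trans ?_
    simp
  have h2 : (univ.image fun p => (S.vx e.1.1.1 p, !(S.bits e.1.1.2 p))).card ≤ b := by
    refine card_image_le.trans ?_
    simp
  have h3 : (univ.image fun p => (S.vx e.1.2.1 p, !(S.bits e.1.2.2 p))).card ≤ b := by
    refine card_image_le.trans ?_
    simp
  refine (card_union_le _ _).trans ?_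
  have := card_union_le (univ.image fun p => (S.vx e.1.1.1 p, !(S.bits e.1.1.2 p)))
    (univ.image fun p => (S.vx e.1.2.1 p, !(S.bits e.1.2.2 p)))
  omega

theorem not_sat_cl (α : Fin n → Bool) (β : Fin g → Bool) (e : EE κ (2 ^ b)) :
    (¬ ∃ l ∈ S.cl β e, α l.1 = l.2) ↔ (S.blk α = β ∧ e ∈ posG (S.trv α)) := by
  have hbool : ∀ a c : Bool, (¬ a = !c) ↔ a = c := by decide
  have hx : ∀ (i : Fin κ) (u : Fin (2 ^ b)), (∀ p, ¬ α (S.vx i p) = !(S.bits u p)) ↔
      S.trv α i = u := by
    intro i u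
    simp only [hbool]
    constructor
    · intro h
      rw [trv, Equiv.symm_apply_eq]
      funext p
      exact h p
    · rintro rfl p
      exact (S.bits_trv α i p).symm
  have hg : (∀ p, ¬ α (S.vg p) = !β p) ↔ S.blk α = β := by
    simp only [hbool]
    exact ⟨fun h => funext h, fun h p => congrFun h p⟩
  rw [← hg]
  change _ ↔ _ ∧ (S.trv α e.1.1.1 = e.1.1.2 ∧ S.trv α e.1.2.1 = e.1.2.2)
  rw [← hx, ← hx]
  constructor
  · intro h
    push Not at h
    refine ⟨fun p => h (S.vg p, !β p) ?_,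
      fun p => h (S.vx e.1.1.1 p, !(S.bits e.1.1.2 p)) ?_,
      fun p => h (S.vx e.1.2.1 p, !(S.bits e.1.2.2 p)) ?_⟩
    · exact mem_union_left _ (mem_image_of_mem _ (mem_univ p))
    · exact mem_union_right _ (mem_union_left _ (mem_image_of_mem _ (mem_univ p)))
    · exact mem_union_right _ (mem_union_right _ (mem_image_of_mem _ (mem_univ p)))
  · rintro ⟨h1, h2, h3⟩ ⟨l, hl, hal⟩
    rcases mem_union.1 hl with h | h
    · obtain ⟨p, -, rfl⟩ := mem_image.1 h
      exact h1 p hal
    · rcases mem_union.1 h with h | h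
      · obtain ⟨p, -, rfl⟩ := mem_image.1 h
        exact h2 p hal
      · obtain ⟨p, -, rfl⟩ := mem_image.1 h
        exact h3 p hal

theorem cl_inj (hb : 1 ≤ b) {β β' : Fin g → Bool} {e e' : EE κ (2 ^ b)}
    (h : S.cl β e = S.cl β' e') : β = β' ∧ e = e' := by
  have h1 : ∀ φ : Fin κ → Fin (2 ^ b), e ∈ posG φ → (β = β' ∧ e' ∈ posG φ) := by
    intro φ hφ
    have h2 := S.not_sat_cl (S.mk' β φ fun _ => false) β e
    have h3 := S.not_sat_cl (S.mk' β φ fun _ => false) β' e'
    rw [← h, blk_mk, trv_mk] at h3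
    rw [blk_mk, trv_mk] at h2
    exact h3.1 (h2.2 ⟨rfl, hφ⟩)
  obtain ⟨⟨⟨i, u⟩, ⟨i', u'⟩⟩, hii⟩ := e
  obtain ⟨⟨⟨j, v⟩, ⟨j', v'⟩⟩, hjj⟩ := e'
  change i < i' at hii
  change j < j' at hjj
  have hw : 1 < 2 ^ b := Nat.one_lt_two_pow (by omega)
  have hne : ∀ v : Fin (2 ^ b), ∃ v₂, v₂ ≠ v := by
    intro v
    have : Nontrivial (Fin (2 ^ b)) := Fin.nontrivial_iff_two_le.2 hw
    exact exists_ne v
  obtain ⟨v₂, hv₂⟩ := hne v
  obtain ⟨v₃, hv₃⟩ := hne v'
  have h2 : ∀ φ : Fin κ → Fin (2 ^ b), φ i = u → φ i' = u' →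
      (β = β' ∧ φ j = v ∧ φ j' = v') := by
    intro φ h3 h4
    have := h1 φ ⟨h3, h4⟩
    exact ⟨this.1, this.2.1, this.2.2⟩
  have hii' : i' ≠ i := ne_of_gt hii
  have h5 := h2 (fun k => if k = i then u else if k = i' then u' else
    if k = j then v₂ else v₃) (by simp) (by simp [hii'])
  obtain ⟨h6, h7, h8⟩ := h5
  refine ⟨h6, ?_⟩
  have hjmem : j = i ∨ j = i' := by
    by_contra hcon
    push Not at hcon
    simp only [if_neg hcon.1, if_neg hcon.2, if_true] at h7
    exact hv₂ h7
  have hjmem' : j' = i ∨ j' = i' := by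
    by_contra hcon
    push Not at hcon
    simp only [if_neg hcon.1, if_neg hcon.2, if_neg (ne_of_gt hjj)] at h8
    exact hv₃ h8
  have hj : j = i := by
    rcases hjmem with h | h
    · exact h
    · rcases hjmem' with h' | h'
      · exfalso
        rw [h, h'] at hjj
        exact lt_asymm hii hjj
      · exfalso
        rw [h, h'] at hjj
        exact lt_irrefl _ hjj
  have hj' : j' = i' := by
    rcases hjmem' with h' | h'
    · exfalso
      rw [hj, h'] at hjj
      exact lt_irrefl _ hjj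
    · exact h'
  subst hj
  subst hj'
  simp only [if_true] at h7
  simp only [if_neg hii', if_true] at h8
  subst h7
  subst h8
  rfl

open scoped Classical in
/-- The formula of a tuple of graphs. -/
noncomputable def formula (y : (Fin g → Bool) → Set (EE κ (2 ^ b))) : Finset (Clause n) :=
  (univ.filter fun p : (Fin g → Bool) × EE κ (2 ^ b) => p.2 ∉ y p.1).image fun p => S.cl p.1 p.2

/-- All clauses. -/
noncomputable def clauses : Finset (Clause n) := by
  classical
  exact (univ : Finset ((Fin g → Bool) × EE κ (2 ^ b))).image fun p => S.cl p.1 p.2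

theorem formula_subset (y : (Fin g → Bool) → Set (EE κ (2 ^ b))) : S.formula y ⊆ S.clauses := by
  classical
  intro c hc
  obtain ⟨p, -, rfl⟩ := mem_image.1 hc
  exact mem_image_of_mem _ (mem_univ p)

theorem card_clauses : S.clauses.card ≤ 2 ^ g * (κ * 2 ^ b) ^ 2 := by
  classical
  refine card_image_le.trans ?_
  rw [card_univ, Fintype.card_prod]
  have h1 : Fintype.card (Fin g → Bool) = 2 ^ g := by simp
  rw [h1]
  apply Nat.mul_le_mul_left
  have h2 : Fintype.card (EE κ (2 ^ b)) ≤ Fintype.card (Vx κ (2 ^ b) × Vx κ (2 ^ b)) :=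
    Fintype.card_subtype_le _
  refine h2.trans (le_of_eq ?_)
  rw [Fintype.card_prod, Fintype.card_prod, Fintype.card_fin, Fintype.card_fin, sq]

theorem width_clauses : ∀ c ∈ S.clauses, c.card ≤ g + 2 * b := by
  classical
  intro c hc
  obtain ⟨p, -, rfl⟩ := mem_image.1 hc
  exact S.card_cl _ _

theorem satisfies_formula (α : Fin n → Bool) (y : (Fin g → Bool) → Set (EE κ (2 ^ b))) :
    Satisfies α (S.formula y) ↔ posG (S.trv α) ⊆ y (S.blk α) := by
  classical
  constructor
  · intro h e he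
    by_contra hcon
    have h1 : S.cl (S.blk α) e ∈ S.formula y :=
      mem_image.2 ⟨(S.blk α, e), mem_filter.2 ⟨mem_univ _, hcon⟩, rfl⟩
    have h2 := (S.not_sat_cl α (S.blk α) e).2 ⟨rfl, he⟩
    exact h2 (h _ h1)
  · intro h c hc
    obtain ⟨⟨β, e⟩, hp, rfl⟩ := mem_image.1 hc
    rw [mem_filter] at hp
    by_contra hcon
    obtain ⟨h1, h2⟩ := (S.not_sat_cl α β e).1 hcon
    subst h1
    exact hp.2 (h h2)

theorem unsat_formula (y : (Fin g → Bool) → Set (EE κ (2 ^ b))) :
    Unsat (S.formula y) ↔ ∀ β, ¬ TK (y β) := by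
  constructor
  · rintro h β ⟨φ, hφ⟩
    apply h (S.mk' β φ fun _ => false)
    rw [S.satisfies_formula, blk_mk, trv_mk]
    exact hφ
  · intro h α hα
    rw [S.satisfies_formula] at hα
    exact h _ ⟨_, hα⟩

theorem formula_anti {y y' : (Fin g → Bool) → Set (EE κ (2 ^ b))} (h : ∀ i, y i ⊆ y' i) :
    S.formula y' ⊆ S.formula y := by
  classical
  intro c hc
  obtain ⟨p, hp, rfl⟩ := mem_image.1 hc
  rw [mem_filter] at hp
  exact mem_image.2 ⟨p, mem_filter.2 ⟨mem_univ _, fun h' => hp.2 (h _ h')⟩, rfl⟩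

theorem mem_formula (hb : 1 ≤ b) (y : (Fin g → Bool) → Set (EE κ (2 ^ b))) (β : Fin g → Bool)
    (e : EE κ (2 ^ b)) : S.cl β e ∈ S.formula y ↔ e ∉ y β := by
  classical
  constructor
  · intro hc
    obtain ⟨⟨β', e'⟩, hp, h⟩ := mem_image.1 hc
    obtain ⟨h1, h2⟩ := S.cl_inj hb h
    simp only at h1 h2
    subst h1
    subst h2
    exact (mem_filter.1 hp).2
  · intro h
    exact mem_image.2 ⟨(β, e), mem_filter.2 ⟨mem_univ _, h⟩, rfl⟩

/-- Every input is constant or an edge variable. -/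
theorem leaf (hb : 1 ≤ b) (c : Clause n) :
    (∃ t : Bool, ∀ y : (Fin g → Bool) → Set (EE κ (2 ^ b)),
      (fun c => !(indicator (S.formula y) c)) c = t) ∨
    ∃ β e, ∀ y : (Fin g → Bool) → Set (EE κ (2 ^ b)),
      (fun c => !(indicator (S.formula y) c)) c = true ↔ e ∈ y β := by
  classical
  by_cases h : ∃ β e, S.cl β e = c
  · obtain ⟨β, e, rfl⟩ := h
    right
    refine ⟨β, e, fun y => ?_⟩
    simp only [indicator, Bool.not_eq_true', decide_eq_false_iff_not]
    rw [S.mem_formula hb]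
    exact not_not
  · left
    refine ⟨true, fun y => ?_⟩
    simp only [indicator, Bool.not_eq_true', decide_eq_false_iff_not]
    intro hc
    obtain ⟨p, -, hp⟩ := mem_image.1 hc
    exact h ⟨_, _, hp⟩

end Cut

end Pool.Agent.T9h36.SN
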